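import Mathlib
import Pool.Agent.H56.SQ.Basic
import Pool.Agent.H56.SQ.Box
import Pool.Agent.H56.SQ.Glue

set_option autoImplicit false

/-!
# SR: every Q-manifold is a star-finite union of basic boxes.  Basic definitions.

`Q = ℕ → I` with the metric `PiCountable.metricSpace` (scoped instance `open scoped PiCountable`; its
topology is definitionally the product topology).  See note 2608 of the team data base for the paper proof.
-/

namespace Pool.Agent.H56.SR

open unitInterval Set Topology Pool.Agent.H56.SQ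
open scoped PiCountable

/-- A binary tree of boxes of `Q`.  Nodes are words (`b :: w` is a child of `w`; ancestors are suffixes).
The node `w` is cut by the hyperplane `x (j w) = c w`; all cut values are different; the sides tend to `0`. -/
structure Tree where
  lo : List Bool → ℕ → I
  hi : List Bool → ℕ → I
  j : List Bool → ℕ
  c : List Bool → I
  lo_nil : ∀ n, lo [] n = 0
  hi_nil : ∀ n, hi [] n = 1
  lo_lt : ∀ w, lo w (j w) < c w
  lt_hi : ∀ w, c w < hi w (j w)
  lo_false : ∀ w, lo (false :: w) = lo w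
  hi_false : ∀ w, hi (false :: w) = Function.update (hi w) (j w) (c w)
  lo_true : ∀ w, lo (true :: w) = Function.update (lo w) (j w) (c w)
  hi_true : ∀ w, hi (true :: w) = hi w
  inj : Function.Injective c
  mesh : ∀ n : ℕ, ∀ δ : ℝ, 0 < δ → ∃ d : ℕ, ∀ w : List Bool, d ≤ w.length →
    (hi w n : ℝ) - lo w n < δ

/-- the box of a node -/
def Tree.P (T : Tree) (w : List Bool) : Set Q := boxx (T.lo w) (T.hi w)

/-- basic closed boxes of `Q` -/
def IsBasic (B : Set Q) : Prop :=
  ∃ a b : Q, (∀ n, a n < b n) ∧ {n | a n ≠ 0 ∨ b n ≠ 1}.Finite ∧ B = boxx a b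

/-- unions of star-finite families of basic boxes -/
def Boxy (X : Set Q) : Prop :=
  ∃ 𝒟 : Set (Set Q), (∀ B ∈ 𝒟, IsBasic B) ∧ (∀ B ∈ 𝒟, {D ∈ 𝒟 | (B ∩ D).Nonempty}.Finite) ∧ X = ⋃₀ 𝒟

/-- continuous injective maps `M → Q` which are proper as maps into `{z | z 0 < 1}` -/
def Good {M : Type} [TopologicalSpace M] (F : M → Q) : Prop :=
  Continuous F ∧ Function.Injective F ∧ (∀ x, (F x 0 : ℝ) < 1) ∧
    ∀ c : ℝ, c < 1 → IsCompact {x | (F x 0 : ℝ) ≤ c}

/-- a chart together with a node of the tree whose box lies in the image of the chart -/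
structure Cell (T : Tree) (M : Type) [TopologicalSpace M] where
  U : Set M
  V : Set Q
  hU : IsOpen U
  hV : IsOpen V
  φ : U ≃ₜ V
  w : List Bool
  hw : T.P w ⊆ V

/-- the closed cell of `M` -/
def Cell.C {T : Tree} {M : Type} [TopologicalSpace M] (c : Cell T M) : Set M :=
  {x | ∃ h : x ∈ c.U, ((c.φ ⟨x, h⟩ : c.V) : Q) ∈ T.P c.w}

/-- box around a point in the first coordinates -/
def EE {ι : Type} (α : ι → Q) (r : ι → ℝ) (k : ι → ℕ) (i : ι) : Set Q :=
  {z | ∀ n, n < k i → |(z n : ℝ) - α i n| ≤ r i}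

/-- first good nodes of length at least `n0` -/
def Leaves (n0 : ℕ) (G : List Bool → Prop) : Set (List Bool) :=
  {v | n0 ≤ v.length ∧ G v ∧ ∀ u, n0 ≤ u.length → u <:+ v → u ≠ v → ¬ G u}

end Pool.Agent.H56.SR
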