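import Mathlib
import Pool.Agent.H56.SR.Basic

set_option autoImplicit false

/-!
# SR-08: the metric of `Q`, convex combinations

`PiCountable.dist_eq_tsum : dist x y = ∑' i, min (2⁻¹ ^ encode i) (dist (x i) (y i))`, `dist_summable`.
-/

namespace Pool.Agent.H56.SR

open unitInterval Set Topology Pool.Agent.H56.SQ
open scoped PiCountable

theorem dist_le_of (x y : Q) (k : ℕ) (r : ℝ) (hr : 0 ≤ r)
    (h : ∀ n, n < k → |(x n : ℝ) - y n| ≤ r) : dist x y ≤ k * r + 2 * (1 / 2) ^ k := by
  rw [PiCountable.dist_eq_tsum]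
  have hs := PiCountable.dist_summable x y
  rw [← hs.sum_add_tsum_nat_add k]
  have h1 : ∑ i ∈ Finset.range k, min ((2 : ℝ)⁻¹ ^ Encodable.encode i) (dist (x i) (y i))
      ≤ k * r := by
    calc ∑ i ∈ Finset.range k, min ((2 : ℝ)⁻¹ ^ Encodable.encode i) (dist (x i) (y i))
        ≤ ∑ _i ∈ Finset.range k, r := by
          refine Finset.sum_le_sum fun i hi => ?_
          refine (min_le_right _ _).trans ?_
          rw [Subtype.dist_eq, Real.dist_eq]
          exact h i (Finset.mem_range.1 hi)
      _ = k * r := by simp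
  have h2 : ∑' i : ℕ, min ((2 : ℝ)⁻¹ ^ Encodable.encode (i + k)) (dist (x (i + k)) (y (i + k)))
      ≤ 2 * (1 / 2) ^ k := by
    have hg : HasSum (fun i : ℕ => ((1 / 2 : ℝ) ^ i) * (1 / 2) ^ k) (2 * (1 / 2) ^ k) :=
      hasSum_geometric_two.mul_right _
    refine hasSum_le (fun i => ?_) ((summable_nat_add_iff k).2 hs).hasSum hg
    refine (min_le_left _ _).trans ?_
    simp only [Encodable.encode_nat]
    rw [← pow_add]
    norm_num
  exact add_le_add h1 h2

theorem abs_zero_le (x y : Q) : |(x 0 : ℝ) - y 0| ≤ dist x y := by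
  have h := PiCountable.min_dist_le_dist_pi x y 0
  have h1 : dist (x 0) (y 0) = |(x 0 : ℝ) - y 0| := by rw [Subtype.dist_eq, Real.dist_eq]
  have h2 : |(x 0 : ℝ) - y 0| ≤ 1 := by
    have h3 := (x 0).2.1
    have h4 := (x 0).2.2
    have h5 := (y 0).2.1
    have h6 := (y 0).2.2
    rw [abs_le]
    constructor <;> linarith
  rw [h1] at h
  simpa [h2] using h

/-- convex combination, `t = 0`: `x`, `t = 1`: `y` -/
noncomputable def cvx (t : I) (x y : Q) : Q := fun n =>
  ⟨(1 - (t : ℝ)) * x n + t * y n, by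
    have h1 := t.2.1
    have h2 := t.2.2
    have h3 := (x n).2.1
    have h4 := (x n).2.2
    have h5 := (y n).2.1
    have h6 := (y n).2.2
    constructor <;> nlinarith⟩

theorem cvx_continuous : Continuous (fun p : I × Q × Q => cvx p.1 p.2.1 p.2.2) := by
  refine continuous_pi fun n => ?_
  refine Continuous.subtype_mk ?_ _
  have h1 : Continuous (fun p : I × Q × Q => (p.1 : ℝ)) := continuous_subtype_val.comp continuous_fst
  have h2 : Continuous (fun p : I × Q × Q => ((p.2.1 n : I) : ℝ)) :=
    continuous_subtype_val.comp ((continuous_apply n).comp (continuous_fst.comp continuous_snd))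
  have h3 : Continuous (fun p : I × Q × Q => ((p.2.2 n : I) : ℝ)) :=
    continuous_subtype_val.comp ((continuous_apply n).comp (continuous_snd.comp continuous_snd))
  exact ((continuous_const.sub h1).mul h2).add (h1.mul h3)

theorem cvx_zero (x y : Q) : cvx 0 x y = x := by
  funext n
  apply Subtype.ext
  simp [cvx]

theorem cvx_one (x y : Q) : cvx 1 x y = y := by
  funext n
  apply Subtype.ext
  simp [cvx]

theorem dist_cvx (t : I) (x y : Q) : dist (cvx t x y) y ≤ dist x y := by
  rw [PiCountable.dist_eq_tsum, PiCountable.dist_eq_tsum]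
  refine (PiCountable.dist_summable _ _).tsum_le_tsum (fun n => ?_) (PiCountable.dist_summable _ _)
  refine min_le_min le_rfl ?_
  rw [Subtype.dist_eq, Subtype.dist_eq, Real.dist_eq, Real.dist_eq]
  have h1 := t.2.1
  have h2 := t.2.2
  have h3 : ((cvx t x y n : I) : ℝ) - y n = (1 - (t : ℝ)) * ((x n : ℝ) - y n) := by
    simp only [cvx]
    ring
  rw [h3, abs_mul, abs_of_nonneg (by linarith : (0 : ℝ) ≤ 1 - t)]
  exact mul_le_of_le_one_left (abs_nonneg _) (by linarith)

end Pool.Agent.H56.SR
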