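import Mathlib
import Pool.Agent.H56.SR.Basic
import Pool.Agent.H56.SR.MetricQ

set_option autoImplicit false

/-!
# SR-10: approximation by injective maps

`t x = 2 + 4 / δ x` continuous, `k = ⌊t x - 1⌋₊ ≥ 4 / δ x`, so `2 * (1/2) ^ k < δ x`.
`c n x = clamp (t x - n) ∈ [0,1]` (`1` for `n ≤ t x - 1`, `0` for `n ≥ t x`).
`m' x n = c n x * m x n + (1 - c n x) * θ x (π n)`, `π n = (Nat.unpair n).1` takes every value infinitely often.
`m' x n = m x n` for `n < ⌊t x - 1⌋₊`, so `dist_le_of` with `r = 0`.  Injective: if `m' x = m' y`, then for every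
`i` take `n ≥ t x, t y` with `π n = i`: `θ x i = m' x n = m' y n = θ y i`.
-/

namespace Pool.Agent.H56.SR

open unitInterval Set Topology Pool.Agent.H56.SQ
open scoped PiCountable

/-- the clamp of a real number to `[0,1]` -/
noncomputable def Approx_cl (s : ℝ) : ℝ := max 0 (min 1 s)

theorem Approx_cl_nonneg (s : ℝ) : 0 ≤ Approx_cl s := le_max_left _ _

theorem Approx_cl_le (s : ℝ) : Approx_cl s ≤ 1 := max_le zero_le_one (min_le_left _ _)

theorem Approx_cl_one {s : ℝ} (h : 1 ≤ s) : Approx_cl s = 1 := by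
  rw [Approx_cl, min_eq_left h, max_eq_right zero_le_one]

theorem Approx_cl_zero {s : ℝ} (h : s ≤ 0) : Approx_cl s = 0 := by
  rw [Approx_cl, min_eq_right (h.trans zero_le_one), max_eq_left h]

theorem Approx_cl_cont : Continuous Approx_cl :=
  continuous_const.max (continuous_const.min continuous_id)

/-- convex combination of two points of `[0,1]` -/
noncomputable def Approx_mix (s : ℝ) (a b : I) : I :=
  ⟨Approx_cl s * a + (1 - Approx_cl s) * b, by
    have h1 := Approx_cl_nonneg s
    have h2 := Approx_cl_le s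
    have h3 := a.2.1
    have h4 := a.2.2
    have h5 := b.2.1
    have h6 := b.2.2
    constructor <;> nlinarith⟩

theorem Approx_mix_one {s : ℝ} (h : 1 ≤ s) (a b : I) : Approx_mix s a b = a := by
  apply Subtype.ext
  show Approx_cl s * (a : ℝ) + (1 - Approx_cl s) * b = a
  rw [Approx_cl_one h]
  ring

theorem Approx_mix_zero {s : ℝ} (h : s ≤ 0) (a b : I) : Approx_mix s a b = b := by
  apply Subtype.ext
  show Approx_cl s * (a : ℝ) + (1 - Approx_cl s) * b = b
  rw [Approx_cl_zero h]
  ring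

theorem inj_approx {N : Type} [TopologicalSpace N] (θ : N → Q) (hθ : Continuous θ)
    (hinj : Function.Injective θ) (m : N → Q) (hm : Continuous m) (δ : N → ℝ) (hδ : Continuous δ)
    (hpos : ∀ x, 0 < δ x) :
    ∃ m' : N → Q, Continuous m' ∧ Function.Injective m' ∧ ∀ x, dist (m' x) (m x) < δ x := by
  have ht : Continuous fun x => 2 + 4 / δ x :=
    continuous_const.add (continuous_const.div hδ fun x => (hpos x).ne')
  refine ⟨fun x n => Approx_mix (2 + 4 / δ x - n) (m x n) (θ x (Nat.unpair n).1), ?_, ?_, ?_⟩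
  · refine continuous_pi fun n => Continuous.subtype_mk ?_ _
    have h1 : Continuous fun x => Approx_cl (2 + 4 / δ x - n) :=
      Approx_cl_cont.comp (ht.sub continuous_const)
    have h2 : Continuous fun x => ((m x n : I) : ℝ) :=
      continuous_subtype_val.comp ((continuous_apply n).comp hm)
    have h3 : Continuous fun x => ((θ x (Nat.unpair n).1 : I) : ℝ) :=
      continuous_subtype_val.comp ((continuous_apply _).comp hθ)
    exact (h1.mul h2).add ((continuous_const.sub h1).mul h3)
  · intro x y hxy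
    apply hinj
    funext i
    set K : ℕ := max ⌈2 + 4 / δ x⌉₊ ⌈2 + 4 / δ y⌉₊ with hK
    have h1 : (K : ℝ) ≤ (Nat.pair i K : ℕ) := by exact_mod_cast Nat.right_le_pair i K
    have hx : 2 + 4 / δ x ≤ (K : ℝ) :=
      (Nat.le_ceil _).trans (by exact_mod_cast le_max_left ⌈2 + 4 / δ x⌉₊ ⌈2 + 4 / δ y⌉₊)
    have hy : 2 + 4 / δ y ≤ (K : ℝ) :=
      (Nat.le_ceil _).trans (by exact_mod_cast le_max_right ⌈2 + 4 / δ x⌉₊ ⌈2 + 4 / δ y⌉₊)
    have h2 := congrFun hxy (Nat.pair i K)
    simp only at h2
    rw [Approx_mix_zero (by linarith), Approx_mix_zero (by linarith), Nat.unpair_pair] at h2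
    exact h2
  · intro x
    set k : ℕ := ⌊2 + 4 / δ x - 1⌋₊ with hk
    have hd : 0 < 4 / δ x := div_pos (by norm_num) (hpos x)
    have h1 : (k : ℝ) ≤ 2 + 4 / δ x - 1 := Nat.floor_le (by linarith)
    have h2 : 2 + 4 / δ x - 1 < (k : ℝ) + 1 := Nat.lt_floor_add_one _
    have h3 : 4 / δ x < (k : ℝ) := by linarith
    have h4 := dist_le_of (fun n => Approx_mix (2 + 4 / δ x - n) (m x n) (θ x (Nat.unpair n).1))
      (m x) k 0 le_rfl (by
        intro n hn
        have h5 : (n : ℝ) + 1 ≤ k := by exact_mod_cast hn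
        rw [Approx_mix_one (by linarith), sub_self, abs_zero])
    refine h4.trans_lt ?_
    have h5 : (k : ℝ) < 2 ^ k := by exact_mod_cast Nat.lt_two_pow_self
    have h6 : (0 : ℝ) < k := hd.trans h3
    have h7 : 2 * (1 / 2 : ℝ) ^ k < δ x := by
      rw [one_div, inv_pow, ← div_eq_mul_inv, div_lt_iff₀ (by positivity)]
      have h8 : 4 < k * δ x := by
        rwa [div_lt_iff₀ (hpos x)] at h3
      have h9 : k * δ x < 2 ^ k * δ x := mul_lt_mul_of_pos_right h5 (hpos x)
      linarith
    linarith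

end Pool.Agent.H56.SR
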