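import Mathlib
import Pool.Agent.H56.SR.Basic

set_option autoImplicit false

/-!
# SR-04: families of boxes: Helly, deficient boundaries

`helly`: `x n = sup over S of lo i n ≤ inf over S of hi i n`.
`fam_defic`: as `SQ/Cover.lean` (`CoverAux.inter_eq`, `CoverAux.bd_defic`): the intersection is
`boxx lw up`, `lw = sup'`, `up = inf'`; apply `box_defic` with `κ = ℕ`; if `x` also lies in the box `j ∉ S`,
`hface` gives a coordinate with `lw n < up n` and `x n = up n ≠ 1` or `x n = lw n ≠ 0`.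
-/

namespace Pool.Agent.H56.SR

open unitInterval Set Topology Pool.Agent.H56.SQ

theorem helly {ι : Type} (lo hi : ι → Q) (S : Finset ι) (hS : S.Nonempty)
    (h : ∀ i ∈ S, ∀ j ∈ S, (boxx (lo i) (hi i) ∩ boxx (lo j) (hi j)).Nonempty) :
    (inter (fun i => boxx (lo i) (hi i)) S).Nonempty := by
  refine ⟨fun n => S.sup' hS (fun i => lo i n), fun j hj n => ⟨?_, ?_⟩⟩
  · exact Finset.le_sup' (fun i => lo i n) hj
  · refine (Finset.sup'_le_iff _ _).2 (fun i hi' => ?_)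
    obtain ⟨y, hy1, hy2⟩ := h i hi' j hj
    exact (hy1 n).1.trans (hy2 n).2

namespace BoxFamAux

variable {ι : Type} (lo hi : ι → Q) (S : Finset ι) (hS : S.Nonempty)

/-- lower end of the intersection -/
noncomputable def lw (k : ℕ) : I := S.sup' hS (fun i => lo i k)

/-- upper end of the intersection -/
noncomputable def up (k : ℕ) : I := S.inf' hS (fun i => hi i k)

theorem inter_eq : inter (fun i => boxx (lo i) (hi i)) S =
    boxx (lw lo S hS) (up hi S hS) := by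
  ext x
  constructor
  · intro hx k
    exact ⟨(Finset.sup'_le_iff _ _).2 (fun i hi => (hx i hi k).1),
      (Finset.le_inf'_iff _ _).2 (fun i hi => (hx i hi k).2)⟩
  · intro hx i hi' k
    exact ⟨(Finset.sup'_le_iff _ _).1 (hx k).1 i hi', (Finset.le_inf'_iff _ _).1 (hx k).2 i hi'⟩

theorem lwup_finite (hfin : ∀ i, {n | lo i n ≠ 0 ∨ hi i n ≠ 1}.Finite) :
    {k | lw lo S hS k ≠ 0 ∨ up hi S hS k ≠ 1}.Finite := by
  have h1 : (⋃ i ∈ S, {k | lo i k ≠ 0 ∨ hi i k ≠ 1}).Finite :=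
    Set.Finite.biUnion S.finite_toSet (fun i _ => hfin i)
  refine h1.subset ?_
  intro k hk
  by_contra hne
  simp only [Set.mem_iUnion, Set.mem_ofPred_eq, not_exists, not_or, not_not] at hne
  rcases hk with hk | hk
  · apply hk
    refine le_antisymm ((Finset.sup'_le_iff _ _).2 (fun i hi => ?_)) unitInterval.nonneg'
    rw [(hne i hi).1]
  · apply hk
    refine le_antisymm unitInterval.le_one' ((Finset.le_inf'_iff _ _).2 (fun i hi => ?_))
    rw [(hne i hi).2]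

end BoxFamAux

theorem fam_defic {ι : Type} (lo hi : ι → Q)
    (hfin : ∀ i, {n | lo i n ≠ 0 ∨ hi i n ≠ 1}.Finite)
    (S : Finset ι) (hS : S.Nonempty) (hne : (inter (fun i => boxx (lo i) (hi i)) S).Nonempty)
    (hface : ∀ j, j ∉ S → ∀ x : Q, (∀ i ∈ S, x ∈ boxx (lo i) (hi i)) → x ∈ boxx (lo j) (hi j) →
      ∃ n, ((∀ i ∈ S, lo i n < x n) ∧ (∃ i ∈ S, x n = hi i n) ∧ x n < 1) ∨
        ((∀ i ∈ S, x n < hi i n) ∧ (∃ i ∈ S, x n = lo i n) ∧ 0 < x n)) :
    Defic (bd (fun i => boxx (lo i) (hi i)) S) := by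
  have heq := BoxFamAux.inter_eq lo hi S hS
  have hle : ∀ k, BoxFamAux.lw lo S hS k ≤ BoxFamAux.up hi S hS k := by
    obtain ⟨y, hy⟩ := hne
    rw [heq] at hy
    exact fun k => (hy k).1.trans (hy k).2
  have h1 := box_defic (BoxFamAux.lw lo S hS) (BoxFamAux.up hi S hS) hle
    (BoxFamAux.lwup_finite lo hi S hS hfin)
  refine (h1.image (Homeomorph.setCongr heq.symm)).mono ?_
  rintro ⟨x, hx⟩ ⟨j, hjS, hxj⟩
  refine ⟨⟨x, heq ▸ hx⟩, ?_, rfl⟩
  change x ∈ boxx (lo j) (hi j) at hxj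
  have hx' : x ∈ boxx (BoxFamAux.lw lo S hS) (BoxFamAux.up hi S hS) := heq ▸ hx
  show ∃ k, BoxFamAux.lw lo S hS k < BoxFamAux.up hi S hS k ∧
    (BoxFamAux.lw lo S hS k ≠ 0 ∨ BoxFamAux.up hi S hS k ≠ 1) ∧
      (x k = BoxFamAux.lw lo S hS k ∨ x k = BoxFamAux.up hi S hS k)
  obtain ⟨n, ⟨h2, ⟨i, hiS, h3⟩, h4⟩ | ⟨h2, ⟨i, hiS, h3⟩, h4⟩⟩ := hface j hjS x hx hxj
  · have h5 : x n = BoxFamAux.up hi S hS n := by
      apply le_antisymm (hx' n).2
      rw [h3]
      exact Finset.inf'_le _ hiS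
    have h6 : BoxFamAux.lw lo S hS n < x n := (Finset.sup'_lt_iff _).2 h2
    exact ⟨n, h5 ▸ h6, Or.inr (h5 ▸ h4.ne), Or.inr h5⟩
  · have h5 : x n = BoxFamAux.lw lo S hS n := by
      refine le_antisymm ?_ (hx' n).1
      rw [h3]
      exact Finset.le_sup' (fun i => lo i n) hiS
    have h6 : x n < BoxFamAux.up hi S hS n := (Finset.lt_inf'_iff _).2 h2
    exact ⟨n, h5 ▸ h6, Or.inl (h5 ▸ h4.ne'), Or.inl h5⟩

end Pool.Agent.H56.SR
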