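import Mathlib
import Pool.Agent.H56.SR.Basic

set_option autoImplicit false

/-!
# SR-09: balls around the images of a locally finite family of points

`δ = infDist z Z` (`Z` empty: take `δ = 1` and `K = univ`).  `N = ball z (δ / 4)`.  If `y ∈ N`,
`dist y (g (p i)) < ε (p i)`, then for every `z' ∈ Z`: `3 δ / 4 ≤ dist y z' ≤ dist y (g (p i)) + dist (g (p i)) z'
≤ (3/2) dist (g (p i)) z'` by `hεZ`, so `g (p i) ∈ K = {q | ∀ z' ∈ Z, δ / 2 ≤ dist q z'}`, closed, hence compact,
disjoint from `Z`.  So `p i ∈ g ⁻¹' K` compact, and the family `p` is locally finite: finitely many `i`.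
-/

namespace Pool.Agent.H56.SR

open unitInterval Set Topology Pool.Agent.H56.SQ
open scoped PiCountable

theorem conf (O : Set Q) (Z : Set Q) (hZ : IsClosed Z) (g : O → Q)
    (hprop : ∀ K : Set Q, IsCompact K → Disjoint K Z → IsCompact (g ⁻¹' K))
    (ε : O → ℝ) (hεZ : ∀ x, ∀ z ∈ Z, 2 * ε x ≤ dist (g x) z)
    {ι : Type} (p : ι → O) (hp : ∀ x : O, ∃ N ∈ 𝓝 x, {i | p i ∈ N}.Finite) (z : Q) (hz : z ∉ Z) :
    ∃ N ∈ 𝓝 z, {i | ∃ y ∈ N, dist y (g (p i)) < ε (p i)}.Finite := by
  obtain ⟨δ, hδ, hball⟩ := Metric.isOpen_iff.1 hZ.isOpen_compl z hz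
  have hδZ : ∀ z' ∈ Z, δ ≤ dist z z' := by
    intro z' hz'
    by_contra hlt
    have h1 : z' ∈ Metric.ball z δ := by
      rw [Metric.mem_ball, dist_comm]
      exact not_le.1 hlt
    exact hball h1 hz'
  set K : Set Q := {q | ∀ z' ∈ Z, δ / 2 ≤ dist q z'} with hK
  have hKc : IsClosed K := by
    have h1 : K = ⋂ z' ∈ Z, {q : Q | δ / 2 ≤ dist q z'} := by
      ext q
      simp [hK]
    rw [h1]
    exact isClosed_biInter fun z' _ => isClosed_le continuous_const (continuous_id.dist continuous_const)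
  have hKcomp : IsCompact K := hKc.isCompact
  have hdis : Disjoint K Z := by
    rw [Set.disjoint_left]
    intro q hq hqZ
    have h1 := hq q hqZ
    rw [dist_self] at h1
    linarith
  have hC : IsCompact (g ⁻¹' K) := hprop K hKcomp hdis
  have hfin : {i | p i ∈ g ⁻¹' K}.Finite := by
    choose N hN hNf using hp
    obtain ⟨t, _, hcov⟩ := hC.elim_nhds_subcover N (fun x _ => hN x)
    refine Set.Finite.subset (t.finite_toSet.biUnion fun x _ => hNf x) ?_
    intro i hi
    have h1 := hcov hi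
    simp only [Set.mem_iUnion] at h1 ⊢
    obtain ⟨x, hx, hix⟩ := h1
    exact ⟨x, hx, hix⟩
  refine ⟨Metric.ball z (δ / 4), Metric.ball_mem_nhds z (by positivity), hfin.subset ?_⟩
  rintro i ⟨y, hy, hyd⟩
  show g (p i) ∈ K
  intro z' hz'
  have h1 := hδZ z' hz'
  have h2 : dist y z < δ / 4 := hy
  have h3 : dist z z' ≤ dist z y + dist y z' := dist_triangle _ _ _
  have h4 : dist y z' ≤ dist y (g (p i)) + dist (g (p i)) z' := dist_triangle _ _ _
  have h5 := hεZ (p i) z' hz'
  have h6 : dist z y = dist y z := dist_comm _ _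
  linarith

end Pool.Agent.H56.SR
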