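import Mathlib
import Pool.Agent.H56.SQ.Glue

set_option autoImplicit false

/-!
# SR-07: the glue theorem with control

Copy the proof of `glue` (`SQ/Glue.lean`), keep `hK` of `exists_glued` (there it is thrown away) and use it with
`T = {i}` to see that the homeomorphism maps `A i` onto `A' i` (or use that it preserves the types `t`, `t'`).
-/

namespace Pool.Agent.H56.SR

open unitInterval Set Topology Pool.Agent.H56.SQ

theorem glue_ctl {ι X X' : Type} [TopologicalSpace X] [TopologicalSpace X'] [DecidableEq ι]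
    (A : ι → Set X) (A' : ι → Set X')
    (hA : ∀ i, IsClosed (A i)) (hA' : ∀ i, IsClosed (A' i))
    (hlf : LocallyFinite A) (hlf' : LocallyFinite A')
    (hcov : ∀ x, ∃ i, x ∈ A i) (hcov' : ∀ x, ∃ i, x ∈ A' i)
    (hfin : ∀ i, {j | (A i ∩ A j).Nonempty}.Finite)
    (hnerve : ∀ S : Finset ι, S.Nonempty → ((inter A S).Nonempty ↔ (inter A' S).Nonempty))
    (hd : ∀ S : Finset ι, S.Nonempty → (inter A S).Nonempty → Defic (bd A S))
    (hd' : ∀ S : Finset ι, S.Nonempty → (inter A' S).Nonempty → Defic (bd A' S)) :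
    ∃ H : X ≃ₜ X', ∀ i x, x ∈ A i ↔ H x ∈ A' i := by
  classical
  -- the types
  set t : X → Finset ι := fun x => (hlf.point_finite x).toFinset with htdef
  have ht : ∀ x i, i ∈ t x ↔ x ∈ A i := fun x i => by
    rw [htdef]
    simp
  set t' : X' → Finset ι := fun x => (hlf'.point_finite x).toFinset with htdef'
  have ht' : ∀ x i, i ∈ t' x ↔ x ∈ A' i := fun x i => by
    rw [htdef']
    simp
  have hdef : ∀ S : Face A, Nonempty (inter A S.1 ≃ₜ inter A' S.1) := by
    intro S
    obtain ⟨α, -⟩ := hd S.1 S.2.1 S.2.2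
    obtain ⟨α', -⟩ := hd' S.1 S.2.1 ((hnerve S.1 S.2.1).1 S.2.2)
    exact ⟨α.trans α'.symm⟩
  let P : ∀ S : Face A, (∀ T : Face A, S.1 ⊂ T.1 → (inter A T.1 ≃ₜ inter A' T.1)) →
      (inter A S.1 ≃ₜ inter A' S.1) → Prop := fun S F H =>
    ∀ (T : Face A) (hT : S.1 ⊂ T.1) (x : X) (hx : x ∈ inter A T.1),
      ((H ⟨x, inter_anti A hT.1 hx⟩ : inter A' S.1) : X') = (F T hT ⟨x, hx⟩ : inter A' T.1)
  let step : ∀ S : Face A, (∀ T : Face A, S.1 ⊂ T.1 → (inter A T.1 ≃ₜ inter A' T.1)) →
      (inter A S.1 ≃ₜ inter A' S.1) := fun S F =>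
    if hex : ∃ H, P S F H then Classical.choose hex else Classical.choice (hdef S)
  have wf := face_wf A hfin
  let h : ∀ S : Face A, inter A S.1 ≃ₜ inter A' S.1 := fun S => wf.fix step S
  have hfix : ∀ S : Face A, h S = step S (fun T _ => h T) := fun S => wf.fix_eq step S
  have hmain : ∀ S : Face A, P S (fun T _ => h T) (h S) := by
    intro S
    induction S using wf.induction with
    | _ S ih =>
      have hex : ∃ H, P S (fun T _ => h T) H := by
        have hmk : ∀ T, S.1 ⊂ T ∧ (inter A T).Nonempty → T.Nonempty ∧ (inter A T).Nonempty :=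
          fun T hT => ⟨S.2.1.mono hT.1.1, hT.2⟩
        obtain ⟨H, hH⟩ := glue_step A A' hA hA' hlf hlf' hnerve t ht t' ht' S.1 S.2.1
          (hd S.1 S.2.1 S.2.2) (hd' S.1 S.2.1 ((hnerve S.1 S.2.1).1 S.2.2))
          (fun T hT => h ⟨T, hmk T hT⟩) (by
            intro T hT T' hT' hTT x hx
            rcases eq_or_ssubset_of_subset hTT with he | hlt
            · subst he
              rfl
            · exact ih ⟨T, hmk T hT⟩ hT.1 ⟨T', hmk T' hT'⟩ hlt x hx)
        exact ⟨H, fun T hT x hx => hH T.1 ⟨hT, T.2.2⟩ x hx⟩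
      have h1 : h S = Classical.choose hex := by
        rw [hfix S]
        exact dif_pos hex
      rw [h1]
      exact Classical.choose_spec hex
  -- the final gluing
  set U : Set (Finset ι) := {T | T.Nonempty ∧ (inter A T).Nonempty} with hU
  have D : GlueData A A' U (fun S hS => h ⟨S, hS⟩) :=
    { cl := hA
      lf := hlf
      ne := fun T hT => hT.1
      up := fun T hT T' hTT hne => ⟨hT.1.mono hTT, hne⟩
      up' := fun T hT T' hTT hne => ⟨hT.1.mono hTT, (hnerve T' (hT.1.mono hTT)).2 hne⟩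
      compat := by
        intro S hS T hT hST x hx
        rcases eq_or_ssubset_of_subset hST with he | hlt
        · subst he
          rfl
        · exact hmain ⟨S, hS⟩ ⟨T, hT⟩ hlt x hx }
  obtain ⟨K, hK⟩ := exists_glued D hA' hlf' t ht t' ht'
  have hall : ∀ x, t x ∈ U := fun x => by
    obtain ⟨i, hi⟩ := hcov x
    exact ⟨⟨i, (ht x i).2 hi⟩, ⟨x, fun i hi => (ht x i).1 hi⟩⟩
  have hall' : ∀ x, t' x ∈ U := fun x => by
    obtain ⟨i, hi⟩ := hcov' x
    have hne : (t' x).Nonempty := ⟨i, (ht' x i).2 hi⟩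
    exact ⟨hne, (hnerve _ hne).2 ⟨x, fun i hi => (ht' x i).1 hi⟩⟩
  refine ⟨{ toFun := fun x => (K ⟨x, hall x⟩).1
            invFun := fun x => (K.symm ⟨x, hall' x⟩).1
            left_inv := fun x => ?_
            right_inv := fun x => ?_
            continuous_toFun := ?_
            continuous_invFun := ?_ }, ?_⟩
  · change (K.symm ⟨(K ⟨x, hall x⟩).1, _⟩).1 = x
    have : (⟨(K ⟨x, hall x⟩).1, hall' _⟩ : {x : X' // t' x ∈ U}) = K ⟨x, hall x⟩ := rfl
    rw [this, Homeomorph.symm_apply_apply]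
  · change (K ⟨(K.symm ⟨x, hall' x⟩).1, _⟩).1 = x
    have : (⟨(K.symm ⟨x, hall' x⟩).1, hall _⟩ : {x : X // t x ∈ U}) = K.symm ⟨x, hall' x⟩ := rfl
    rw [this, Homeomorph.apply_symm_apply]
  · exact continuous_subtype_val.comp (K.continuous.comp (continuous_id.subtype_mk _))
  · exact continuous_subtype_val.comp (K.symm.continuous.comp (continuous_id.subtype_mk _))
  · intro i x
    change x ∈ A i ↔ ((K ⟨x, hall x⟩).1 : X') ∈ A' i
    constructor
    · intro hx
      have hx1 : x ∈ inter A ({i} : Finset ι) := by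
        intro j hj
        rw [Finset.mem_singleton.1 hj]
        exact hx
      have hT : ({i} : Finset ι) ∈ U := ⟨Finset.singleton_nonempty i, ⟨x, hx1⟩⟩
      rw [hK ⟨x, hall x⟩ {i} hT hx1]
      exact (h ⟨{i}, hT⟩ ⟨x, hx1⟩).2 i (Finset.mem_singleton_self i)
    · intro hx
      have hx1 : ((K ⟨x, hall x⟩).1 : X') ∈ inter A' ({i} : Finset ι) := by
        intro j hj
        rw [Finset.mem_singleton.1 hj]
        exact hx
      have hT : ({i} : Finset ι) ∈ U := ⟨Finset.singleton_nonempty i,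
        (hnerve _ (Finset.singleton_nonempty i)).2 ⟨_, hx1⟩⟩
      set z : inter A ({i} : Finset ι) :=
        (h ⟨{i}, hT⟩).symm ⟨((K ⟨x, hall x⟩).1 : X'), hx1⟩ with hz
      have h1 := hK ⟨z.1, hall z.1⟩ {i} hT z.2
      have h2 : h ⟨{i}, hT⟩ ⟨z.1, z.2⟩ = ⟨((K ⟨x, hall x⟩).1 : X'), hx1⟩ := by
        have : (⟨z.1, z.2⟩ : inter A ({i} : Finset ι)) = z := rfl
        rw [this, hz, Homeomorph.apply_symm_apply]
      have h3 : K ⟨z.1, hall z.1⟩ = K ⟨x, hall x⟩ := by
        apply Subtype.ext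
        rw [h1]
        exact congrArg Subtype.val h2
      have h4 : z.1 = x := congrArg Subtype.val (K.injective h3)
      rw [← h4]
      exact z.2 i (Finset.mem_singleton_self i)

end Pool.Agent.H56.SR
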