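import Mathlib
import Pool.Agent.H56.SR.Basic

set_option autoImplicit false

/-!
# SR-02: elementary facts on trees of boxes

All by induction on the word (`u <:+ b :: v` iff `u = b :: v` or `u <:+ v`: `List.suffix_cons_iff`).
`small`: `H ∈ 𝓝 x` contains `{y | |y n - x n| < δ, n < N}`; take `G` the same with `δ / 2` and `m` from `mesh`
(finitely many coordinates): a node of length `≥ m` meeting `G` has `n`-sides `< δ / 2` for `n < N`.
-/

namespace Pool.Agent.H56.SR

open unitInterval Set Topology Pool.Agent.H56.SQ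

theorem Tree.lo_lt_hi (T : Tree) (w : List Bool) (n : ℕ) : T.lo w n < T.hi w n := by
  induction w with
  | nil => rw [T.lo_nil, T.hi_nil]; exact zero_lt_one
  | cons b w ih =>
    cases b
    · rw [T.lo_false, T.hi_false]
      by_cases hn : n = T.j w
      · subst hn; rw [Function.update_self]; exact T.lo_lt w
      · rw [Function.update_of_ne hn]; exact ih
    · rw [T.lo_true, T.hi_true]
      by_cases hn : n = T.j w
      · subst hn; rw [Function.update_self]; exact T.lt_hi w
      · rw [Function.update_of_ne hn]; exact ih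

theorem Tree.finite_restr (T : Tree) (w : List Bool) : {n | T.lo w n ≠ 0 ∨ T.hi w n ≠ 1}.Finite := by
  induction w with
  | nil =>
    refine Set.Finite.subset Set.finite_empty ?_
    intro n hn
    rcases hn with hn | hn
    · exact (hn (T.lo_nil n)).elim
    · exact (hn (T.hi_nil n)).elim
  | cons b w ih =>
    refine (ih.insert (T.j w)).subset ?_
    intro n hn
    by_cases h : n = T.j w
    · exact Or.inl h
    · refine Or.inr ?_
      cases b
      · rw [mem_ofPred_eq, T.lo_false, T.hi_false, Function.update_of_ne h] at hn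
        exact hn
      · rw [mem_ofPred_eq, T.lo_true, T.hi_true, Function.update_of_ne h] at hn
        exact hn

theorem Tree.mem_false (T : Tree) (w : List Bool) (x : Q) :
    x ∈ T.P (false :: w) ↔ x ∈ T.P w ∧ x (T.j w) ≤ T.c w := by
  constructor
  · intro hx
    have h1 : x (T.j w) ≤ T.c w := by
      have h2 := (hx (T.j w)).2
      rw [T.hi_false, Function.update_self] at h2
      exact h2
    refine ⟨fun n => ?_, h1⟩
    by_cases hn : n = T.j w
    · subst hn
      have h3 := (hx (T.j w)).1
      rw [T.lo_false] at h3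
      exact ⟨h3, h1.trans (T.lt_hi w).le⟩
    · have h3 := hx n
      rw [T.lo_false, T.hi_false, Function.update_of_ne hn] at h3
      exact h3
  · rintro ⟨hx, h1⟩ n
    rw [T.lo_false, T.hi_false]
    by_cases hn : n = T.j w
    · subst hn
      rw [Function.update_self]
      exact ⟨(hx _).1, h1⟩
    · rw [Function.update_of_ne hn]
      exact hx n

theorem Tree.mem_true (T : Tree) (w : List Bool) (x : Q) :
    x ∈ T.P (true :: w) ↔ x ∈ T.P w ∧ T.c w ≤ x (T.j w) := by
  constructor
  · intro hx
    have h1 : T.c w ≤ x (T.j w) := by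
      have h2 := (hx (T.j w)).1
      rw [T.lo_true, Function.update_self] at h2
      exact h2
    refine ⟨fun n => ?_, h1⟩
    by_cases hn : n = T.j w
    · subst hn
      have h3 := (hx (T.j w)).2
      rw [T.hi_true] at h3
      exact ⟨(T.lo_lt w).le.trans h1, h3⟩
    · have h3 := hx n
      rw [T.lo_true, T.hi_true, Function.update_of_ne hn] at h3
      exact h3
  · rintro ⟨hx, h1⟩ n
    rw [T.lo_true, T.hi_true]
    by_cases hn : n = T.j w
    · subst hn
      rw [Function.update_self]
      exact ⟨h1, (hx _).2⟩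
    · rw [Function.update_of_ne hn]
      exact hx n

theorem Tree.P_split (T : Tree) (w : List Bool) : T.P w = T.P (false :: w) ∪ T.P (true :: w) := by
  ext x
  rw [mem_union, T.mem_false, T.mem_true]
  constructor
  · intro hx
    rcases le_total (x (T.j w)) (T.c w) with h | h
    · exact Or.inl ⟨hx, h⟩
    · exact Or.inr ⟨hx, h⟩
  · rintro (h | h)
    · exact h.1
    · exact h.1

theorem Tree.P_mono (T : Tree) {u v : List Bool} (h : u <:+ v) : T.P v ⊆ T.P u := by
  induction v with
  | nil =>
    rw [List.suffix_nil] at h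
    rw [h]
  | cons b v ih =>
    rcases List.suffix_cons_iff.1 h with h1 | h1
    · rw [h1]
    · refine Set.Subset.trans ?_ (ih h1)
      rw [T.P_split v]
      cases b
      · exact subset_union_left
      · exact subset_union_right

theorem Tree.P_eq_Icc (T : Tree) (w : List Bool) : T.P w = Icc (T.lo w) (T.hi w) := by
  ext x
  constructor
  · intro hx
    exact ⟨fun n => (hx n).1, fun n => (hx n).2⟩
  · intro hx n
    exact ⟨hx.1 n, hx.2 n⟩

theorem Tree.P_closed (T : Tree) (w : List Bool) : IsClosed (T.P w) := by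
  rw [T.P_eq_Icc]
  exact isClosed_Icc

theorem Tree.P_compact (T : Tree) (w : List Bool) : IsCompact (T.P w) :=
  (T.P_closed w).isCompact

theorem Tree.P_nonempty (T : Tree) (w : List Bool) : (T.P w).Nonempty :=
  ⟨T.lo w, fun n => ⟨le_rfl, (T.lo_lt_hi w n).le⟩⟩

theorem Tree.P_nil (T : Tree) : T.P [] = univ := by
  ext x
  refine ⟨fun _ => mem_univ _, fun _ n => ?_⟩
  rw [T.lo_nil, T.hi_nil]
  exact ⟨unitInterval.nonneg', unitInterval.le_one'⟩

/-- for every length, every point lies in a node of this length -/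
theorem Tree.exists_mem (T : Tree) (x : Q) (n : ℕ) : ∃ w : List Bool, w.length = n ∧ x ∈ T.P w := by
  induction n with
  | zero => exact ⟨[], rfl, by rw [T.P_nil]; exact mem_univ _⟩
  | succ n ih =>
    obtain ⟨w, hw, hx⟩ := ih
    rw [T.P_split w] at hx
    rcases hx with hx | hx
    · exact ⟨false :: w, by rw [List.length_cons, hw], hx⟩
    · exact ⟨true :: w, by rw [List.length_cons, hw], hx⟩

theorem Tree.lo_ne (T : Tree) (v : List Bool) (n : ℕ) (h : T.lo v n ≠ 0) :
    ∃ u, (true :: u) <:+ v ∧ T.j u = n ∧ T.c u = T.lo v n := by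
  induction v with
  | nil => exact (h (T.lo_nil n)).elim
  | cons b v ih =>
    cases b
    · rw [T.lo_false] at h ⊢
      obtain ⟨u, h1, h2, h3⟩ := ih h
      exact ⟨u, h1.trans (List.suffix_cons _ _), h2, h3⟩
    · by_cases hn : n = T.j v
      · refine ⟨v, List.suffix_rfl, hn.symm, ?_⟩
        rw [T.lo_true, hn, Function.update_self]
      · rw [T.lo_true, Function.update_of_ne hn] at h ⊢
        obtain ⟨u, h1, h2, h3⟩ := ih h
        exact ⟨u, h1.trans (List.suffix_cons _ _), h2, h3⟩

theorem Tree.hi_ne (T : Tree) (v : List Bool) (n : ℕ) (h : T.hi v n ≠ 1) :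
    ∃ u, (false :: u) <:+ v ∧ T.j u = n ∧ T.c u = T.hi v n := by
  induction v with
  | nil => exact (h (T.hi_nil n)).elim
  | cons b v ih =>
    cases b
    · by_cases hn : n = T.j v
      · refine ⟨v, List.suffix_rfl, hn.symm, ?_⟩
        rw [T.hi_false, hn, Function.update_self]
      · rw [T.hi_false, Function.update_of_ne hn] at h ⊢
        obtain ⟨u, h1, h2, h3⟩ := ih h
        exact ⟨u, h1.trans (List.suffix_cons _ _), h2, h3⟩
    · rw [T.hi_true] at h ⊢
      obtain ⟨u, h1, h2, h3⟩ := ih h
      exact ⟨u, h1.trans (List.suffix_cons _ _), h2, h3⟩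

theorem Tree.side_false (T : Tree) {u v : List Bool} (h : (false :: u) <:+ v) {x : Q} (hx : x ∈ T.P v) :
    x (T.j u) ≤ T.c u :=
  ((T.mem_false u x).1 (T.P_mono h hx)).2

theorem Tree.side_true (T : Tree) {u v : List Bool} (h : (true :: u) <:+ v) {x : Q} (hx : x ∈ T.P v) :
    T.c u ≤ x (T.j u) :=
  ((T.mem_true u x).1 (T.P_mono h hx)).2

theorem Tree.small (T : Tree) (x : Q) (H : Set Q) (hH : H ∈ 𝓝 x) :
    ∃ G ∈ 𝓝 x, ∃ m : ℕ, ∀ w : List Bool, m ≤ w.length → (T.P w ∩ G).Nonempty → T.P w ⊆ H := by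
  rw [nhds_pi, Filter.mem_pi] at hH
  obtain ⟨J, hJ, t, ht, hsub⟩ := hH
  have h1 : ∀ i, ∃ δ : ℝ, 0 < δ ∧ Metric.ball (x i) δ ⊆ t i := fun i => Metric.mem_nhds_iff.1 (ht i)
  choose δ hδ hball using h1
  have h2 : ∀ i, ∃ d : ℕ, ∀ w : List Bool, d ≤ w.length → (T.hi w i : ℝ) - T.lo w i < δ i / 2 :=
    fun i => T.mesh i (δ i / 2) (half_pos (hδ i))
  choose d hd using h2
  refine ⟨J.pi fun i => Metric.ball (x i) (δ i / 2),
    set_pi_mem_nhds hJ fun i _ => Metric.ball_mem_nhds _ (half_pos (hδ i)),
    hJ.toFinset.sup d, ?_⟩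
  rintro w hw ⟨y, hy, hyG⟩ z hz
  apply hsub
  intro i hi
  apply hball
  have h3 : d i ≤ w.length :=
    (Finset.le_sup (f := d) (hJ.mem_toFinset.2 hi)).trans hw
  have h4 := hd i w h3
  have h5 : dist (y i) (x i) < δ i / 2 := hyG i hi
  have h6 : dist (z i) (y i) ≤ (T.hi w i : ℝ) - T.lo w i := by
    rw [Subtype.dist_eq, Real.dist_eq, abs_le]
    have a1 : (T.lo w i : ℝ) ≤ z i := (hz i).1
    have a2 : (z i : ℝ) ≤ T.hi w i := (hz i).2
    have a3 : (T.lo w i : ℝ) ≤ y i := (hy i).1
    have a4 : (y i : ℝ) ≤ T.hi w i := (hy i).2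
    constructor <;> linarith
  rw [Metric.mem_ball]
  have h7 := dist_triangle (z i) (y i) (x i)
  linarith

end Pool.Agent.H56.SR
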