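import Mathlib
import Pool.Agent.H56.SR.Basic
import Pool.Agent.H56.SR.TreeA

set_option autoImplicit false

/-!
# SR-06: the family of first good nodes

1. antichain: if `u <:+ v`, `u ≠ v`, both leaves: `u` is good of length `≥ n0`, contradiction to `v` a leaf.
2. `x ∈ O ∩ P w`, `w.length = n0`: descendants of `w` containing `x` of every length exist (`P_split`); those of
   large length are good (`hG2`, they meet `N` in `x`); take a good one of minimal length among the descendants of
   `w` containing `x`: a proper suffix `u` of it with `n0 ≤ u.length` is again a descendant of `w` (suffixes of a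
   list are totally ordered by length: `List.suffix_of_suffix_length_le`) and contains `x` (`P_mono`), so it is not
   good.
3. every `x ∈ O` lies in some node of length `n0` (`exists_mem`).
4. locally finite: for `x` take `N`, `m` from `hG2`: a leaf `v` with `v.length > max n0 m` meeting `N` has the tail
   (parent) `u`, `n0 ≤ u.length`, `m ≤ u.length`, `P v ⊆ P u` meets `N`, so `u` is good, contradiction.  So the
   length of `v` is bounded and there are finitely many words of bounded length (`List.finite_length_le`).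
-/

namespace Pool.Agent.H56.SR

open unitInterval Set Topology Pool.Agent.H56.SQ

theorem leaves (T : Tree) (O : Set Q) (n0 : ℕ) (G : List Bool → Prop)
    (hG2 : ∀ x ∈ O, ∃ N ∈ 𝓝 x, ∃ m : ℕ, ∀ w : List Bool, m ≤ w.length → (T.P w ∩ N).Nonempty → G w) :
    (∀ u ∈ Leaves n0 G, ∀ v ∈ Leaves n0 G, u ≠ v → ¬ u <:+ v) ∧
    (∀ w : List Bool, w.length = n0 → ∀ x ∈ O, x ∈ T.P w → ∃ v ∈ Leaves n0 G, w <:+ v ∧ x ∈ T.P v) ∧
    (∀ x ∈ O, ∃ v ∈ Leaves n0 G, x ∈ T.P v) ∧
    (∀ x ∈ O, ∃ N ∈ 𝓝 x, {v ∈ Leaves n0 G | (T.P v ∩ N).Nonempty}.Finite) := by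
  have h2 : ∀ w : List Bool, w.length = n0 → ∀ x ∈ O, x ∈ T.P w →
      ∃ v ∈ Leaves n0 G, w <:+ v ∧ x ∈ T.P v := by
    intro w hw x hxO hx
    obtain ⟨N, hN, m, hm⟩ := hG2 x hxO
    have hdesc : ∀ d : ℕ, ∃ v : List Bool, w <:+ v ∧ v.length = n0 + d ∧ x ∈ T.P v := by
      intro d
      induction d with
      | zero => exact ⟨w, List.suffix_rfl, by rw [hw, Nat.add_zero], hx⟩
      | succ d ih =>
        obtain ⟨v, hwv, hv, hxv⟩ := ih
        rw [T.P_split v] at hxv
        rcases hxv with hxv | hxv
        · exact ⟨false :: v, hwv.trans (List.suffix_cons _ _), by rw [List.length_cons, hv, Nat.add_assoc], hxv⟩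
        · exact ⟨true :: v, hwv.trans (List.suffix_cons _ _), by rw [List.length_cons, hv, Nat.add_assoc], hxv⟩
    have hex : ∃ l : ℕ, ∃ v : List Bool, w <:+ v ∧ v.length = l ∧ x ∈ T.P v ∧ G v := by
      obtain ⟨v, hwv, hv, hxv⟩ := hdesc m
      refine ⟨n0 + m, v, hwv, hv, hxv, hm v (by omega) ⟨x, hxv, mem_of_mem_nhds hN⟩⟩
    classical
    obtain ⟨v, hwv, hv, hxv, hGv⟩ := Nat.find_spec hex
    refine ⟨v, ⟨?_, hGv, ?_⟩, hwv, hxv⟩
    · have := hwv.length_le
      omega
    · intro u hu huv hne hGu
      have hwu : w <:+ u := List.suffix_of_suffix_length_le hwv huv (by omega)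
      have hmin : Nat.find hex ≤ u.length :=
        Nat.find_min' hex ⟨u, hwu, rfl, T.P_mono huv hxv, hGu⟩
      have hle := huv.length_le
      exact hne (huv.eq_of_length (by omega))
  refine ⟨?_, h2, ?_, ?_⟩
  · intro u hu v hv hne huv
    exact hv.2.2 u hu.1 huv hne hu.2.1
  · intro x hxO
    obtain ⟨w, hw, hx⟩ := T.exists_mem x n0
    obtain ⟨v, hv, _, hxv⟩ := h2 w hw x hxO hx
    exact ⟨v, hv, hxv⟩
  · intro x hxO
    obtain ⟨N, hN, m, hm⟩ := hG2 x hxO
    refine ⟨N, hN, (List.finite_length_le Bool (max n0 m)).subset ?_⟩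
    rintro v ⟨hv, hne⟩
    by_contra hlen
    have hlen' : max n0 m < v.length := lt_of_not_ge hlen
    cases v with
    | nil => simp at hlen'
    | cons b u =>
      rw [List.length_cons] at hlen'
      have h1 : n0 ≤ u.length := (le_max_left n0 m).trans (Nat.lt_succ_iff.1 hlen')
      have h3 : m ≤ u.length := (le_max_right n0 m).trans (Nat.lt_succ_iff.1 hlen')
      have hsuf : u <:+ b :: u := List.suffix_cons _ _
      have hG : G u := hm u h3 (hne.mono (inter_subset_inter_left N (T.P_mono hsuf)))
      refine hv.2.2 u h1 hsuf ?_ hG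
      intro h
      have := congrArg List.length h
      rw [List.length_cons] at this
      omega

end Pool.Agent.H56.SR
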