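import Mathlib
import Pool.Agent.H56.SR.Basic
import Pool.Agent.H56.SR.TreeA

set_option autoImplicit false

/-!
# SR-03: strictness of the tree

Proof.  Choose `s₁ ∈ S` and a common suffix `u` of `s₁` and `w` with `u.length` maximal over all `s ∈ S` and
all common suffixes of `s` and `w` (finitely many).  As `s₁`, `w` are not comparable, `b :: u <:+ w`,
`b' :: u <:+ s₁`, `b ≠ b'`.  Say `b = true`, `b' = false`.  Put `n = T.j u`, `c = T.c u`; `x n = c` by
`side_true` (for `w`) and `side_false` (for `s₁`).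
For `s ∈ S`: (1) `u <:+ s`: then `s ≠ u` (`¬ s <:+ w`), so `b'' :: u <:+ s`, and `b'' = false` by maximality;
`x n ≤ T.hi s n ≤ c`, because `T.hi s n ≤ c` (induction on the suffix relation, or: `T.hi s` is in `T.P s`, apply
`side_false` to the point `T.hi s`); so `T.hi s n = c` and `T.lo s n < c`.
(2) not `u <:+ s`: `T.lo s n ≤ c ≤ T.hi s n`; if `T.lo s n = c` then `c ≠ 0` (`T.lo_lt`) and `lo_ne` gives `u'` with
`true :: u' <:+ s`, `T.c u' = c`, so `u' = u` (`inj`), contradiction.  Hence `T.lo s n < c`.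
So the first alternative holds, with `s₁` for the second part, and `x n = c < T.hi u n ≤ 1`.
The case `b = false`, `b' = true` is symmetric and gives the second alternative.
-/

namespace Pool.Agent.H56.SR

open unitInterval Set Topology Pool.Agent.H56.SQ

/-- a proper suffix can be extended by one letter -/
theorem exists_cons_suffix {u v : List Bool} (h : u <:+ v) (hne : u ≠ v) : ∃ b, (b :: u) <:+ v := by
  obtain ⟨t, rfl⟩ := h
  rcases List.eq_nil_or_concat t with ht | ⟨t', b, ht⟩
  · exact absurd (by simp [ht]) hne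
  · refine ⟨b, t', ?_⟩
    rw [ht]
    simp

theorem Tree.lo_mem (T : Tree) (s : List Bool) : (T.lo s : Q) ∈ T.P s :=
  fun k => ⟨le_refl _, (T.lo_lt_hi s k).le⟩

theorem Tree.hi_mem (T : Tree) (s : List Bool) : (T.hi s : Q) ∈ T.P s :=
  fun k => ⟨(T.lo_lt_hi s k).le, le_refl _⟩

theorem Tree.strict (T : Tree) (S : Finset (List Bool)) (hS : S.Nonempty) (w : List Bool)
    (hanti : ∀ s ∈ S, ¬ s <:+ w ∧ ¬ w <:+ s) (x : Q) (hxS : ∀ s ∈ S, x ∈ T.P s) (hxw : x ∈ T.P w) :
    ∃ n, ((∀ s ∈ S, T.lo s n < x n) ∧ (∃ s ∈ S, x n = T.hi s n) ∧ x n < 1) ∨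
      ((∀ s ∈ S, x n < T.hi s n) ∧ (∃ s ∈ S, x n = T.lo s n) ∧ 0 < x n) := by
  classical
  obtain ⟨s0, hs0⟩ := hS
  have hne : ((S ×ˢ w.tails.toFinset).filter (fun p => p.2 <:+ p.1)).Nonempty := by
    refine ⟨(s0, []), ?_⟩
    simp [hs0]
  obtain ⟨⟨s1, u⟩, hmem, hmax⟩ := Finset.exists_max_image _
    (fun p : List Bool × List Bool => p.2.length) hne
  simp only [Finset.mem_filter, Finset.mem_product, List.mem_toFinset, List.mem_tails] at hmem hmax
  obtain ⟨⟨hs1, huw⟩, hus1⟩ := hmem
  -- maximality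
  have hmax' : ∀ s ∈ S, ∀ b : Bool, (b :: u) <:+ w → (b :: u) <:+ s → False := by
    intro s hs b h1 h2
    have h3 := hmax (s, b :: u) ⟨⟨hs, h1⟩, h2⟩
    simp at h3
  have huw' : u ≠ w := by
    rintro rfl
    exact (hanti s1 hs1).2 hus1
  have hus : ∀ s ∈ S, u <:+ s → u ≠ s := by
    rintro s hs h rfl
    exact (hanti u hs).1 huw
  obtain ⟨b, hbw⟩ := exists_cons_suffix huw huw'
  obtain ⟨b', hb's⟩ := exists_cons_suffix hus1 (hus s1 hs1 hus1)
  have hlh := T.lo_lt u
  have hhh := T.lt_hi u
  refine ⟨T.j u, ?_⟩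
  cases b
  · -- `false :: u <:+ w`
    right
    have hb' : b' = true := by
      cases b'
      · exact (hmax' s1 hs1 false hbw hb's).elim
      · rfl
    subst hb'
    have h1 : x (T.j u) ≤ T.c u := T.side_false hbw hxw
    have h2 : T.c u ≤ x (T.j u) := T.side_true hb's (hxS s1 hs1)
    have hx : x (T.j u) = T.c u := le_antisymm h1 h2
    refine ⟨?_, ⟨s1, hs1, ?_⟩, ?_⟩
    · intro s hs
      rw [hx]
      by_cases h : u <:+ s
      · obtain ⟨b'', hb''⟩ := exists_cons_suffix h (hus s hs h)
        cases b''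
        · exact (hmax' s hs false hbw hb'').elim
        · exact lt_of_le_of_lt (T.side_true hb'' (T.lo_mem s)) (T.lo_lt_hi s _)
      · have h3 : T.c u ≤ T.hi s (T.j u) := by
          rw [← hx]
          exact (hxS s hs (T.j u)).2
        rcases lt_or_eq_of_le h3 with h4 | h4
        · exact h4
        · exfalso
          have h5 : T.hi s (T.j u) ≠ 1 := by
            rw [← h4]
            exact (lt_of_lt_of_le hhh le_one').ne
          obtain ⟨u', h6, -, h7⟩ := T.hi_ne s _ h5
          rw [← h4] at h7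
          have h8 := T.inj h7
          subst h8
          exact h ((List.suffix_cons _ _).trans h6)
    · apply le_antisymm
      · rw [hx]
        exact T.side_true hb's (T.lo_mem s1)
      · exact (hxS s1 hs1 (T.j u)).1
    · rw [hx]
      exact lt_of_le_of_lt nonneg' hlh
  · -- `true :: u <:+ w`
    left
    have hb' : b' = false := by
      cases b'
      · rfl
      · exact (hmax' s1 hs1 true hbw hb's).elim
    subst hb'
    have h1 : T.c u ≤ x (T.j u) := T.side_true hbw hxw
    have h2 : x (T.j u) ≤ T.c u := T.side_false hb's (hxS s1 hs1)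
    have hx : x (T.j u) = T.c u := le_antisymm h2 h1
    refine ⟨?_, ⟨s1, hs1, ?_⟩, ?_⟩
    · intro s hs
      rw [hx]
      by_cases h : u <:+ s
      · obtain ⟨b'', hb''⟩ := exists_cons_suffix h (hus s hs h)
        cases b''
        · exact lt_of_lt_of_le (T.lo_lt_hi s _) (T.side_false hb'' (T.hi_mem s))
        · exact (hmax' s hs true hbw hb'').elim
      · have h3 : T.lo s (T.j u) ≤ T.c u := by
          rw [← hx]
          exact (hxS s hs (T.j u)).1
        rcases lt_or_eq_of_le h3 with h4 | h4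
        · exact h4
        · exfalso
          have h5 : T.lo s (T.j u) ≠ 0 := by
            rw [h4]
            exact (lt_of_le_of_lt nonneg' hlh).ne'
          obtain ⟨u', h6, -, h7⟩ := T.lo_ne s _ h5
          rw [h4] at h7
          have h8 := T.inj h7
          subst h8
          exact h ((List.suffix_cons _ _).trans h6)
    · apply le_antisymm
      · exact (hxS s1 hs1 (T.j u)).2
      · rw [hx]
        exact T.side_false hb's (T.hi_mem s1)
    · rw [hx]
      exact lt_of_lt_of_le hhh le_one'

end Pool.Agent.H56.SR
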