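import Mathlib
import Pool.Agent.H56.SR.Basic
import Pool.Agent.H56.SR.BoxFam

set_option autoImplicit false

/-!
# SR-05: target boxes near given points with a prescribed flag nerve

Proof.  `e : ι → ℕ` injective.  Conflict: `i ≈ j` iff `i ≠ j` and `EE i ∩ EE j` nonempty (adjacent pairs are in
conflict, by `hadj`).  `bnd i j` = a number `≥ k l` for all `l ∈ {i, j}` and all `l ≈ i`, `l ≈ j` (finitely many).
`p i j = Nat.pair (Nat.pair (e i) (e j)) (bnd i j)` for `e i < e j`: injective in `(i, j)` and `≥ bnd i j`.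
Box `i`: coordinate `n < k i`: `[max 0 (α i n - r i), min 1 (α i n + r i)]`.  Coordinate `n ≥ k i`:
if `n = p i j` with `i ≈ j`, `e i < e j`: `[0, 1/2]` if adjacent, `[0, 1/3]` if not;
if `n = p j i` with `j ≈ i`, `e j < e i`: `[1/2, 1]` if adjacent, `[2/3, 1]` if not; otherwise `[0, 1]`.
(The two cases exclude each other and `j` is unique, by injectivity of `p`.)
* boxes lie in `EE i`: clear.  Finitely many restricted coordinates: `n < k i` and the `p i j`, `p j i`, `j ≈ i`.
* `i ≠ j` not adjacent: if not `i ≈ j`: `EE i ∩ EE j` is empty; otherwise the coordinate `p`.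
* `S` a clique.  Nonempty: `helly` for pairs: `i, j ∈ S` adjacent: coordinate `n < min (k i) (k j)`: by `hadj` the
  intervals meet (the point `max 0 (α i n - r i) ⊔ max 0 (α j n - r j)`); `k i ≤ n < k j` and `n = p i l` or
  `p l i` with `l ≈ i`: then `n ≥ k j` as `j ≈ i`, contradiction; so box `i` is full there.  `n ≥ both`: if both
  are restricted then `n = p` of the pair `{i, j}` itself (else the private pairs `{i,l}`, `{j,l'}` are equal, so
  `l = j`, `l' = i`) and the intervals `[0,1/2]`, `[1/2,1]` meet in `1/2`.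
* `Defic`: `fam_defic`; `hface` for `j ∉ S`, `x` in all boxes: choose `i ∈ S`; `i, j` adjacent (otherwise the boxes
  are disjoint); `n = p` of the pair; `x n = 1/2`.  No other `i' ∈ S` is restricted in coordinate `n` (private
  coordinate; and `n ≥ k i'` since `i' ≈ i` or `i' = i`).  If `e i < e j` the box `i` has `[0, 1/2]`: first
  alternative; otherwise second alternative.
-/

namespace Pool.Agent.H56.SR

open unitInterval Set Topology Pool.Agent.H56.SQ

namespace TargetAux

/-- `1/2` -/
noncomputable def hf : I := ⟨1/2, by norm_num, by norm_num⟩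

/-- `1/3` -/
noncomputable def th : I := ⟨1/3, by norm_num, by norm_num⟩

/-- `2/3` -/
noncomputable def tt : I := ⟨2/3, by norm_num, by norm_num⟩

theorem zero_lt_hf : (0 : I) < hf := by
  show ((0 : I) : ℝ) < (hf : ℝ); simp [hf]

theorem hf_lt_one : hf < (1 : I) := by
  show (hf : ℝ) < ((1 : I) : ℝ); simp only [hf, Set.Icc.coe_one]; norm_num

theorem zero_lt_th : (0 : I) < th := by
  show ((0 : I) : ℝ) < (th : ℝ); simp [th]

theorem tt_lt_one : tt < (1 : I) := by
  show (tt : ℝ) < ((1 : I) : ℝ); simp only [tt, Set.Icc.coe_one]; norm_num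

theorem th_lt_tt : th < tt := by
  show (th : ℝ) < (tt : ℝ); simp only [th, tt]; norm_num

/-- lower end of the interval around `a` -/
noncomputable def lowI (a : I) (r : ℝ) (hr : 0 < r) : I :=
  ⟨max 0 ((a : ℝ) - r), le_max_left _ _, max_le zero_le_one (by linarith [a.2.2])⟩

/-- upper end of the interval around `a` -/
noncomputable def upI (a : I) (r : ℝ) (hr : 0 < r) : I :=
  ⟨min 1 ((a : ℝ) + r), le_min zero_le_one (by linarith [a.2.1]), min_le_left _ _⟩

theorem lowI_lt_upI (a : I) (r : ℝ) (hr : 0 < r) : lowI a r hr < upI a r hr := by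
  show max 0 ((a : ℝ) - r) < min 1 ((a : ℝ) + r)
  have h1 := a.2.1
  have h2 := a.2.2
  refine max_lt (lt_min zero_lt_one (by linarith)) (lt_min (by linarith) (by linarith))

section

variable {ι : Type} (adj : ι → ι → Prop) (α : ι → Q) (r : ι → ℝ) (hr : ∀ i, 0 < r i) (k : ι → ℕ)
  (e : ι → ℕ) (B : ι → ℕ)

/-- conflict -/
def Conf (i j : ι) : Prop := i ≠ j ∧ (EE α r k i ∩ EE α r k j).Nonempty

theorem Conf.symm {α : ι → Q} {r : ι → ℝ} {k : ι → ℕ} {i j : ι} (h : Conf α r k i j) :
    Conf α r k j i := ⟨h.1.symm, by rw [inter_comm]; exact h.2⟩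

/-- private coordinate -/
def pc (i j : ι) : ℕ := Nat.pair (Nat.pair (e i) (e j)) (B i + B j)

theorem pc_inj (he : Function.Injective e) {i j i' j' : ι} (h : pc e B i j = pc e B i' j') :
    i = i' ∧ j = j' := by
  have h1 := (Nat.pair_eq_pair.1 h).1
  have h2 := Nat.pair_eq_pair.1 h1
  exact ⟨he h2.1, he h2.2⟩

theorem le_pc_left (i j : ι) : B i ≤ pc e B i j :=
  (Nat.le_add_right _ _).trans (Nat.right_le_pair _ _)

theorem le_pc_right (i j : ι) : B j ≤ pc e B i j :=
  (Nat.le_add_left _ _).trans (Nat.right_le_pair _ _)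

/-- `n` is the private coordinate of `i` and a smaller `j` -/
def Lo (i : ι) (n : ℕ) : Prop := ∃ j, Conf α r k j i ∧ e j < e i ∧ n = pc e B j i

/-- `n` is the private coordinate of `i` and a larger `j` -/
def Up (i : ι) (n : ℕ) : Prop := ∃ j, Conf α r k i j ∧ e i < e j ∧ n = pc e B i j

/-- the same with an adjacent `j` -/
def LoA (i : ι) (n : ℕ) : Prop := ∃ j, Conf α r k j i ∧ e j < e i ∧ n = pc e B j i ∧ adj j i

/-- the same with an adjacent `j` -/
def UpA (i : ι) (n : ℕ) : Prop := ∃ j, Conf α r k i j ∧ e i < e j ∧ n = pc e B i j ∧ adj i j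

open Classical in
/-- lower ends -/
noncomputable def lo (i : ι) (n : ℕ) : I :=
  if n < k i then lowI (α i n) (r i) (hr i)
  else if Lo α r k e B i n then (if LoA adj α r k e B i n then hf else tt) else 0

open Classical in
/-- upper ends -/
noncomputable def hi (i : ι) (n : ℕ) : I :=
  if n < k i then upI (α i n) (r i) (hr i)
  else if Up α r k e B i n then (if UpA adj α r k e B i n then hf else th) else 1

theorem not_lo_up (he : Function.Injective e) {i : ι} {n : ℕ} (h1 : Lo α r k e B i n)
    (h2 : Up α r k e B i n) : False := by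
  obtain ⟨j, _, h4, h5⟩ := h1
  obtain ⟨l, _, _, h8⟩ := h2
  have h9 := (pc_inj e B he (h5.symm.trans h8)).1
  rw [h9] at h4
  exact lt_irrefl _ h4

theorem lo_lt_hi (he : Function.Injective e) (i : ι) (n : ℕ) :
    lo adj α r hr k e B i n < hi adj α r hr k e B i n := by
  unfold lo hi
  split_ifs with h1 h2 h3 h4 h5 h6 h7
  all_goals first
    | exact lowI_lt_upI _ _ _
    | exact (not_lo_up α r k e B he ‹_› ‹_›).elim
    | exact hf_lt_one
    | exact tt_lt_one
    | exact zero_lt_hf
    | exact zero_lt_th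
    | exact zero_lt_hf.trans hf_lt_one

theorem restr_finite (hfin : ∀ i, {j | (EE α r k i ∩ EE α r k j).Nonempty}.Finite) (i : ι) :
    {n | lo adj α r hr k e B i n ≠ 0 ∨ hi adj α r hr k e B i n ≠ 1}.Finite := by
  have h1 := (Set.finite_Iio (k i)).union (((hfin i).image (fun j => pc e B j i)).union
    ((hfin i).image (fun j => pc e B i j)))
  refine h1.subset ?_
  intro n hn
  by_contra hne
  simp only [Set.mem_union, not_or, Set.mem_Iio] at hne
  obtain ⟨h2, h3, h4⟩ := hne
  rcases hn with hn | hn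
  · apply hn
    unfold lo
    rw [if_neg h2, if_neg]
    rintro ⟨j, h5, -, h6⟩
    exact h3 ⟨j, h5.symm.2, h6.symm⟩
  · apply hn
    unfold hi
    rw [if_neg h2, if_neg]
    rintro ⟨j, h5, -, h6⟩
    exact h4 ⟨j, h5.2, h6.symm⟩

theorem box_subset (i : ι) :
    boxx (lo adj α r hr k e B i) (hi adj α r hr k e B i) ⊆ EE α r k i := by
  intro x hx n hn
  have h1 := hx n
  unfold lo hi at h1
  rw [if_pos hn, if_pos hn] at h1
  have h2 : max 0 ((α i n : ℝ) - r i) ≤ x n := h1.1
  have h3 : (x n : ℝ) ≤ min 1 ((α i n : ℝ) + r i) := h1.2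
  have h4 := (le_max_right _ _).trans h2
  have h5 := h3.trans (min_le_right _ _)
  rw [abs_le]
  constructor <;> linarith

theorem adj_conf {i j : ι} (hij : i ≠ j) (hri : 0 < r i) (hrj : 0 < r j)
    (hadj : ∀ n, n < k i → n < k j → |(α i n : ℝ) - α j n| < r i + r j) : Conf α r k i j := by
  refine ⟨hij, fun n => if n < k i then (if n < k j then
    lowI (α i n) (r i) hri ⊔ lowI (α j n) (r j) hrj else α i n) else α j n, ?_, ?_⟩
  · intro n hn
    simp only [if_pos hn]
    by_cases hn' : n < k j
    · rw [if_pos hn']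
      have h1 := abs_lt.1 (hadj n hn hn')
      have h2 := (α i n).2.1
      have h2' := (α i n).2.2
      have h3 := (α j n).2.1
      show |((lowI (α i n) (r i) hri ⊔ lowI (α j n) (r j) hrj : I) : ℝ) - α i n| ≤ r i
      rcases le_total (lowI (α i n) (r i) hri) (lowI (α j n) (r j) hrj) with h | h
      · rw [sup_eq_right.2 h]
        have h4 : max 0 ((α i n : ℝ) - r i) ≤ max 0 ((α j n : ℝ) - r j) := h
        show |max 0 ((α j n : ℝ) - r j) - α i n| ≤ r i
        have h5 := (le_max_right _ _).trans h4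
        rw [abs_le]
        refine ⟨by linarith, ?_⟩
        have h6 : max 0 ((α j n : ℝ) - r j) ≤ α i n + r i := max_le (by linarith) (by linarith)
        linarith
      · rw [sup_eq_left.2 h]
        show |max 0 ((α i n : ℝ) - r i) - α i n| ≤ r i
        have h5 := le_max_right 0 ((α i n : ℝ) - r i)
        have h6 : max 0 ((α i n : ℝ) - r i) ≤ α i n + r i := max_le (by linarith) (by linarith)
        rw [abs_le]
        constructor <;> linarith
    · rw [if_neg hn', sub_self, abs_zero]
      exact hri.le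
  · intro n hn
    simp only [if_pos hn]
    by_cases hn' : n < k i
    · rw [if_pos hn']
      have h1 := abs_lt.1 (hadj n hn' hn)
      have h2 := (α i n).2.1
      have h3 := (α j n).2.1
      show |((lowI (α i n) (r i) hri ⊔ lowI (α j n) (r j) hrj : I) : ℝ) - α j n| ≤ r j
      rcases le_total (lowI (α i n) (r i) hri) (lowI (α j n) (r j) hrj) with h | h
      · rw [sup_eq_right.2 h]
        show |max 0 ((α j n : ℝ) - r j) - α j n| ≤ r j
        have h5 := le_max_right 0 ((α j n : ℝ) - r j)
        have h6 : max 0 ((α j n : ℝ) - r j) ≤ α j n + r j := max_le (by linarith) (by linarith)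
        rw [abs_le]
        constructor <;> linarith
      · rw [sup_eq_left.2 h]
        have h4 : max 0 ((α j n : ℝ) - r j) ≤ max 0 ((α i n : ℝ) - r i) := h
        show |max 0 ((α i n : ℝ) - r i) - α j n| ≤ r j
        have h5 := (le_max_right _ _).trans h4
        rw [abs_le]
        refine ⟨by linarith, ?_⟩
        have h6 : max 0 ((α i n : ℝ) - r i) ≤ α j n + r j := max_le (by linarith) (by linarith)
        linarith
    · rw [if_neg hn', sub_self, abs_zero]
      exact hrj.le

variable {adj α r k e B}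

/-- the values at the private coordinate, larger member -/
theorem lo_pc (he : Function.Injective e) (hB : ∀ i, k i ≤ B i) {i j : ι} (hc : Conf α r k i j)
    (hlt : e i < e j) : (adj i j → lo adj α r hr k e B j (pc e B i j) = hf) ∧
      (¬ adj i j → lo adj α r hr k e B j (pc e B i j) = tt) := by
  have h1 : ¬ pc e B i j < k j := not_lt.2 ((hB j).trans (le_pc_right e B i j))
  have h2 : Lo α r k e B j (pc e B i j) := ⟨i, hc, hlt, rfl⟩
  constructor
  · intro h
    unfold lo
    rw [if_neg h1, if_pos h2, if_pos ⟨i, hc, hlt, rfl, h⟩]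
  · intro h
    unfold lo
    rw [if_neg h1, if_pos h2, if_neg]
    rintro ⟨l, -, -, h3, h4⟩
    rw [← (pc_inj e B he h3).1] at h4
    exact h h4

/-- the values at the private coordinate, smaller member -/
theorem hi_pc (he : Function.Injective e) (hB : ∀ i, k i ≤ B i) {i j : ι} (hc : Conf α r k i j)
    (hlt : e i < e j) : (adj i j → hi adj α r hr k e B i (pc e B i j) = hf) ∧
      (¬ adj i j → hi adj α r hr k e B i (pc e B i j) = th) := by
  have h1 : ¬ pc e B i j < k i := not_lt.2 ((hB i).trans (le_pc_left e B i j))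
  have h2 : Up α r k e B i (pc e B i j) := ⟨j, hc, hlt, rfl⟩
  constructor
  · intro h
    unfold hi
    rw [if_neg h1, if_pos h2, if_pos ⟨j, hc, hlt, rfl, h⟩]
  · intro h
    unfold hi
    rw [if_neg h1, if_pos h2, if_neg]
    rintro ⟨l, -, -, h3, h4⟩
    rw [← (pc_inj e B he h3).2] at h4
    exact h h4

theorem disj (he : Function.Injective e) (hB : ∀ i, k i ≤ B i)
    (hsymm : ∀ i j, adj i j → adj j i) (i j : ι) (hij : i ≠ j) (hadj : ¬ adj i j) :
    boxx (lo adj α r hr k e B i) (hi adj α r hr k e B i) ∩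
      boxx (lo adj α r hr k e B j) (hi adj α r hr k e B j) = ∅ := by
  rw [Set.eq_empty_iff_forall_notMem]
  rintro x ⟨hx1, hx2⟩
  have key : ∀ i j : ι, i ≠ j → e i < e j → ¬ adj i j →
      x ∈ boxx (lo adj α r hr k e B i) (hi adj α r hr k e B i) →
      x ∈ boxx (lo adj α r hr k e B j) (hi adj α r hr k e B j) → False := by
    intro i j h0 h1 h2 h3 h4
    have hc : Conf α r k i j := ⟨h0, x, box_subset adj α r hr k e B i h3,
      box_subset adj α r hr k e B j h4⟩
    have h5 := (h3 (pc e B i j)).2
    have h6 := (h4 (pc e B i j)).1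
    rw [(hi_pc hr he hB hc h1).2 h2] at h5
    rw [(lo_pc hr he hB hc h1).2 h2] at h6
    exact absurd (h6.trans h5) (not_le.2 th_lt_tt)
  rcases lt_trichotomy (e i) (e j) with h | h | h
  · exact key i j hij h hadj hx1 hx2
  · exact hij (he h)
  · exact key j i hij.symm h (fun h' => hadj (hsymm _ _ h')) hx2 hx1

/-- lower ends are below the upper ends of adjacent boxes -/
theorem cross (he : Function.Injective e)
    (hB' : ∀ i j, Conf α r k i j → k j ≤ B i) {i j : ι} (hc : Conf α r k i j)
    (hji : adj j i) (hadj : ∀ n, n < k i → n < k j → |(α i n : ℝ) - α j n| < r i + r j) (n : ℕ) :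
    lo adj α r hr k e B i n ≤ hi adj α r hr k e B j n := by
  unfold lo hi
  by_cases h1 : n < k i
  · rw [if_pos h1]
    by_cases h2 : n < k j
    · rw [if_pos h2]
      show max 0 ((α i n : ℝ) - r i) ≤ min 1 ((α j n : ℝ) + r j)
      have h3 := abs_lt.1 (hadj n h1 h2)
      have h4 := (α i n).2.2
      have h5 := (α j n).2.1
      have h6 := hr i
      have h7 := hr j
      refine max_le (le_min zero_le_one (by linarith)) (le_min (by linarith) (by linarith))
    · rw [if_neg h2, if_neg]
      · exact unitInterval.le_one'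
      · rintro ⟨l, _, _, h5⟩
        have h6 := (hB' j i hc.symm).trans (le_pc_left e B j l)
        rw [← h5] at h6
        exact absurd h6 (not_le.2 h1)
  · rw [if_neg h1]
    by_cases h2 : n < k j
    · rw [if_neg]
      · exact unitInterval.nonneg'
      · rintro ⟨l, _, _, h5⟩
        have h6 := (hB' i j hc).trans (le_pc_right e B l i)
        rw [← h5] at h6
        exact absurd h6 (not_le.2 h2)
    · rw [if_neg h2]
      by_cases h3 : Lo α r k e B i n
      · by_cases h4 : Up α r k e B j n
        · rw [if_pos h3, if_pos h4]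
          obtain ⟨l, hl1, hl2, hl3⟩ := h3
          obtain ⟨m, hm1, hm2, hm3⟩ := h4
          obtain ⟨h5, h6⟩ := pc_inj e B he (hl3.symm.trans hm3)
          subst h5
          rw [if_pos ⟨l, hl1, hl2, hl3, hji⟩, if_pos]
          exact ⟨i, hl1, hl2, hl3, hji⟩
        · rw [if_neg h4]
          exact unitInterval.le_one'
      · rw [if_neg h3]
        exact unitInterval.nonneg'

end

end TargetAux

open TargetAux in
theorem exists_target {ι : Type} [Countable ι] (adj : ι → ι → Prop)
    (hsymm : ∀ i j, adj i j → adj j i) (hirr : ∀ i, ¬ adj i i)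
    (α : ι → Q) (r : ι → ℝ) (hr : ∀ i, 0 < r i) (k : ι → ℕ)
    (hadj : ∀ i j, adj i j → ∀ n, n < k i → n < k j → |(α i n : ℝ) - α j n| < r i + r j)
    (hfin : ∀ i, {j | (EE α r k i ∩ EE α r k j).Nonempty}.Finite) :
    ∃ lo hi : ι → Q,
      (∀ i n, lo i n < hi i n) ∧
      (∀ i, {n | lo i n ≠ 0 ∨ hi i n ≠ 1}.Finite) ∧
      (∀ i, boxx (lo i) (hi i) ⊆ EE α r k i) ∧
      (∀ i j, i ≠ j → ¬ adj i j → boxx (lo i) (hi i) ∩ boxx (lo j) (hi j) = ∅) ∧
      (∀ S : Finset ι, S.Nonempty → (∀ i ∈ S, ∀ j ∈ S, i ≠ j → adj i j) →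
        (inter (fun i => boxx (lo i) (hi i)) S).Nonempty ∧
        Defic (bd (fun i => boxx (lo i) (hi i)) S)) := by
  obtain ⟨e, he⟩ := exists_injective_nat ι
  set B : ι → ℕ := fun i => (hfin i).toFinset.sup k with hBdef
  have hB0 : ∀ i j, (EE α r k i ∩ EE α r k j).Nonempty → k j ≤ B i := by
    intro i j hij
    exact Finset.le_sup (f := k) ((hfin i).mem_toFinset.2 hij)
  have hB : ∀ i, k i ≤ B i := by
    intro i
    refine hB0 i i ⟨α i, ?_, ?_⟩ <;>
    · intro n _
      rw [sub_self, abs_zero]
      exact (hr i).le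
  have hB' : ∀ i j, Conf α r k i j → k j ≤ B i := fun i j h => hB0 i j h.2
  have hconf : ∀ i j, adj i j → Conf α r k i j := fun i j h =>
    adj_conf α r k (fun h' => hirr i (h'.symm ▸ h)) (hr i) (hr j) (hadj i j h)
  have hlt := lo_lt_hi adj α r hr k e B he
  have hdisj := disj (adj := adj) (α := α) hr he hB hsymm
  refine ⟨lo adj α r hr k e B, hi adj α r hr k e B, hlt, restr_finite adj α r hr k e B hfin,
    box_subset adj α r hr k e B, hdisj, ?_⟩
  intro S hS hcl
  have hne : (inter (fun i => boxx (lo adj α r hr k e B i) (hi adj α r hr k e B i)) S).Nonempty := by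
    refine helly _ _ S hS fun i hi' j hj => ?_
    by_cases hij : i = j
    · subst hij
      exact ⟨lo adj α r hr k e B i, fun n => ⟨le_refl _, (hlt i n).le⟩,
        fun n => ⟨le_refl _, (hlt i n).le⟩⟩
    · have ha := hcl i hi' j hj hij
      have ha' := hsymm _ _ ha
      refine ⟨fun n => lo adj α r hr k e B i n ⊔ lo adj α r hr k e B j n, fun n => ?_, fun n => ?_⟩
      · exact ⟨le_sup_left, sup_le (hlt i n).le
          (cross hr he hB' (hconf j i ha') ha (hadj j i ha') n)⟩
      · exact ⟨le_sup_right, sup_le (cross hr he hB' (hconf i j ha) ha' (hadj i j ha) n)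
          (hlt j n).le⟩
  refine ⟨hne, fam_defic _ _ (restr_finite adj α r hr k e B hfin) S hS hne ?_⟩
  intro j hj x hxS hxj
  obtain ⟨i, hiS⟩ := hS
  have hxi := hxS i hiS
  have hij : i ≠ j := by
    rintro rfl
    exact hj hiS
  have ha : adj i j := by
    by_contra hna
    exact Set.eq_empty_iff_forall_notMem.1 (hdisj i j hij hna) x ⟨hxi, hxj⟩
  have hc := hconf i j ha
  have hk : ∀ i' ∈ S, k i' ≤ B i := by
    intro i' hi'
    by_cases h : i = i'
    · rw [← h]
      exact hB i
    · exact hB' i i' (hconf i i' (hcl i hiS i' hi' h))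
  rcases lt_or_gt_of_ne (fun h => hij (he h) : e i ≠ e j) with hlt' | hlt'
  · refine ⟨pc e B i j, Or.inl ?_⟩
    have h1 := (hi_pc hr he hB hc hlt').1 ha
    have h2 := (lo_pc hr he hB hc hlt').1 ha
    have h3 : x (pc e B i j) = hf := by
      apply le_antisymm
      · rw [← h1]
        exact (hxi _).2
      · rw [← h2]
        exact (hxj _).1
    refine ⟨fun i' hi' => ?_, ⟨i, hiS, by rw [h3, h1]⟩, by rw [h3]; exact hf_lt_one⟩
    have h4 : lo adj α r hr k e B i' (pc e B i j) = 0 := by
      unfold lo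
      rw [if_neg (not_lt.2 ((hk i' hi').trans (le_pc_left e B i j))), if_neg]
      rintro ⟨l, -, -, h5⟩
      have h6 := (pc_inj e B he h5).2
      rw [h6] at hj
      exact hj hi'
    rw [h4, h3]
    exact zero_lt_hf
  · refine ⟨pc e B j i, Or.inr ?_⟩
    have ha' := hsymm _ _ ha
    have h1 := (hi_pc hr he hB hc.symm hlt').1 ha'
    have h2 := (lo_pc hr he hB hc.symm hlt').1 ha'
    have h3 : x (pc e B j i) = hf := by
      apply le_antisymm
      · rw [← h1]
        exact (hxj _).2
      · rw [← h2]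
        exact (hxi _).1
    refine ⟨fun i' hi' => ?_, ⟨i, hiS, by rw [h3, h2]⟩, by rw [h3]; exact zero_lt_hf⟩
    have h4 : hi adj α r hr k e B i' (pc e B j i) = 1 := by
      unfold hi
      rw [if_neg (not_lt.2 ((hk i' hi').trans (le_pc_right e B j i))), if_neg]
      rintro ⟨l, -, -, h5⟩
      have h6 := (pc_inj e B he h5).1
      rw [h6] at hj
      exact hj hi'
    rw [h4, h3]
    exact hf_lt_one

end Pool.Agent.H56.SR
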