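import Mathlib
import Pool.Agent.H56.SR.Basic
import Pool.Agent.H56.SR.TreeA
import Pool.Agent.H56.SR.Strict
import Pool.Agent.H56.SR.BoxFam
import Pool.Agent.H56.SR.Target
import Pool.Agent.H56.SR.LeavesA
import Pool.Agent.H56.SR.GlueCtl
import Pool.Agent.H56.SR.MetricQ
import Pool.Agent.H56.SR.Conf

set_option autoImplicit false

/-!
# SR-14: controlled box embedding (assembly of SR-02 .. SR-09)
-/

namespace Pool.Agent.H56.SR

open unitInterval Set Topology Pool.Agent.H56.SQ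
open scoped PiCountable

/-- intersections in a subspace containing all members of the family -/
def cbe_inter {ι Y : Type} [TopologicalSpace Y] (X : Set Y) (B : ι → Set Y) (hB : ∀ i, B i ⊆ X)
    (S : Finset ι) (hS : S.Nonempty) :
    inter B S ≃ₜ inter (fun i => (Subtype.val ⁻¹' (B i) : Set X)) S where
  toFun y := ⟨⟨y.1, by
    obtain ⟨i, hi⟩ := hS
    exact hB i (y.2 i hi)⟩, fun i hi => y.2 i hi⟩
  invFun x := ⟨x.1.1, fun i hi => x.2 i hi⟩
  left_inv _ := rfl
  right_inv _ := rfl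
  continuous_toFun := by
    refine Continuous.subtype_mk (Continuous.subtype_mk continuous_subtype_val _) _
  continuous_invFun := by
    refine Continuous.subtype_mk (continuous_subtype_val.comp continuous_subtype_val) _

theorem cbe_defic {ι Y : Type} [TopologicalSpace Y] (X : Set Y) (B : ι → Set Y) (hB : ∀ i, B i ⊆ X)
    (S : Finset ι) (hS : S.Nonempty)
    (h : Defic (bd B S)) : Defic (bd (fun i => (Subtype.val ⁻¹' (B i) : Set X)) S) := by
  refine (h.image (cbe_inter X B hB S hS)).mono ?_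
  rintro x ⟨j, hj, hx⟩
  refine ⟨(cbe_inter X B hB S hS).symm x, ⟨j, hj, hx⟩, ?_⟩
  exact (cbe_inter X B hB S hS).apply_symm_apply x

/-- good nodes with their constants -/
def CbeGood (T : Tree) (O : Set Q) (g : O → Q) (ε : O → ℝ) (v : List Bool) (k : ℕ) (r : ℝ) : Prop :=
  0 < r ∧ T.P v ⊆ O ∧
  (∀ x y : O, (x : Q) ∈ T.P v → (y : Q) ∈ T.P v → ∀ n, n < k → |(g x n : ℝ) - g y n| < r) ∧
  (∀ x : O, (x : Q) ∈ T.P v → k * (2 * r) + 2 * (1 / 2) ^ k < ε x)

theorem cbe_good_nhds (T : Tree) (O : Set Q) (hO : IsOpen O) (g : O → Q) (hg : Continuous g)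
    (ε : O → ℝ) (hε : Continuous ε) (hpos : ∀ x, 0 < ε x) (x : Q) (hx : x ∈ O) :
    ∃ N ∈ 𝓝 x, ∃ m : ℕ, ∀ w : List Bool, m ≤ w.length → (T.P w ∩ N).Nonempty →
      ∃ k r, CbeGood T O g ε w k r := by
  set x₀ : O := ⟨x, hx⟩ with hx₀
  set e := ε x₀ with he
  have he0 : 0 < e := hpos x₀
  obtain ⟨k, hk⟩ : ∃ k : ℕ, ((1 : ℝ) / 2) ^ k < e / 8 :=
    exists_pow_lt_of_lt_one (by positivity) (by norm_num)
  set r : ℝ := e / (8 * (k + 1)) with hr
  have hr0 : 0 < r := by positivity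
  have hkr : (k : ℝ) * (2 * r) ≤ e / 4 := by
    rw [hr]
    have h1 : (k : ℝ) / (k + 1) ≤ 1 := by
      rw [div_le_one (by positivity)]
      linarith
    have h2 : (k : ℝ) * (2 * (e / (8 * (k + 1)))) = (k / (k + 1)) * (e / 4) := by
      field_simp
      ring
    rw [h2]
    nlinarith
  let H0 : Set O := {y | (∀ n, n < k → |(g y n : ℝ) - g x₀ n| < r / 2) ∧ e / 2 < ε y}
  have hH0 : H0 ∈ 𝓝 x₀ := by
    have h1 : ∀ n ∈ Finset.range k, {y : O | |(g y n : ℝ) - g x₀ n| < r / 2} ∈ 𝓝 x₀ := by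
      intro n _
      have hc : Continuous fun y : O => |(g y n : ℝ) - g x₀ n| :=
        ((continuous_subtype_val.comp ((continuous_apply n).comp hg)).sub continuous_const).abs
      apply (isOpen_lt hc continuous_const).mem_nhds
      show |(g x₀ n : ℝ) - g x₀ n| < r / 2
      rw [sub_self, abs_zero]
      positivity
    have h2 : {y : O | e / 2 < ε y} ∈ 𝓝 x₀ := by
      apply (isOpen_lt continuous_const hε).mem_nhds
      show e / 2 < ε x₀
      linarith
    have h3 := (Filter.biInter_finset_mem (Finset.range k)).2 h1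
    filter_upwards [h3, h2] with y hy1 hy2
    refine ⟨fun n hn => ?_, hy2⟩
    simp only [mem_iInter] at hy1
    exact hy1 n (Finset.mem_range.2 hn)
  have hH : Subtype.val '' H0 ∈ 𝓝 x :=
    hO.isOpenEmbedding_subtypeVal.isOpenMap.image_mem_nhds (x := x₀) hH0
  obtain ⟨N, hN, m, hm⟩ := T.small x _ hH
  refine ⟨N, hN, m, fun w hw hne => ⟨k, r, hr0, ?_, ?_, ?_⟩⟩
  · intro y hy
    obtain ⟨y', -, rfl⟩ := hm w hw hne hy
    exact y'.2
  · intro y z hy hz n hn
    obtain ⟨y', hy', hyy⟩ := hm w hw hne hy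
    obtain ⟨z', hz', hzz⟩ := hm w hw hne hz
    have e1 : y' = y := Subtype.ext hyy
    have e2 : z' = z := Subtype.ext hzz
    subst e1 e2
    have h1 := abs_lt.1 (hy'.1 n hn)
    have h2 := abs_lt.1 (hz'.1 n hn)
    rw [abs_lt]
    constructor <;> linarith [h1.1, h1.2, h2.1, h2.2]
  · intro y hy
    obtain ⟨y', hy', hyy⟩ := hm w hw hne hy
    have e1 : y' = y := Subtype.ext hyy
    subst e1
    have h1 := hy'.2
    linarith

theorem cbe (T : Tree) (O : Set Q) (hO : IsOpen O) (w : List Bool) (Z : Set Q) (hZ : IsClosed Z)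
    (g : O → Q) (hg : Continuous g)
    (hprop : ∀ K : Set Q, IsCompact K → Disjoint K Z → IsCompact (g ⁻¹' K))
    (ε : O → ℝ) (hε : Continuous ε) (hpos : ∀ x, 0 < ε x)
    (hεZ : ∀ x, ∀ z ∈ Z, 2 * ε x ≤ dist (g x) z) :
    ∃ f : O → Q, Continuous f ∧ Function.Injective f ∧ (∀ x, dist (f x) (g x) < ε x) ∧
      Boxy (f '' {x : O | (x : Q) ∈ T.P w}) := by
  classical
  set G : List Bool → Prop := fun v => ∃ k r, CbeGood T O g ε v k r with hG
  obtain ⟨hanti, hcov1, hcov, hlf⟩ := leaves T O w.length G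
    (fun x hx => cbe_good_nhds T O hO g hg ε hε hpos x hx)
  -- the index type
  let ι : Type := {v : List Bool // v ∈ Leaves w.length G}
  have hch : ∀ v : ι, ∃ k r, CbeGood T O g ε v.1 k r := fun v => v.2.2.1
  choose k r hkr using hch
  have hc : ∀ v : ι, ∃ x : O, (x : Q) ∈ T.P v.1 := by
    intro v
    obtain ⟨x, hx⟩ := T.P_nonempty v.1
    exact ⟨⟨x, (hkr v).2.1 hx⟩, hx⟩
  choose c hc using hc
  let α : ι → Q := fun v => g (c v)
  let adj : ι → ι → Prop := fun u v => u ≠ v ∧ (T.P u.1 ∩ T.P v.1).Nonempty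
  have hsymm : ∀ i j, adj i j → adj j i := by
    rintro i j ⟨h1, h2⟩
    refine ⟨h1.symm, ?_⟩
    rw [inter_comm]
    exact h2
  have hirr : ∀ i, ¬ adj i i := fun i h => h.1 rfl
  have hadj : ∀ i j, adj i j → ∀ n, n < k i → n < k j → |(α i n : ℝ) - α j n| < r i + r j := by
    rintro i j ⟨-, x, hxi, hxj⟩ n hni hnj
    have hxO : x ∈ O := (hkr i).2.1 hxi
    have h1 := abs_lt.1 ((hkr i).2.2.1 (c i) ⟨x, hxO⟩ (hc i) hxi n hni)
    have h2 := abs_lt.1 ((hkr j).2.2.1 (c j) ⟨x, hxO⟩ (hc j) hxj n hnj)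
    show |(g (c i) n : ℝ) - g (c j) n| < r i + r j
    rw [abs_lt]
    constructor <;> linarith [h1.1, h1.2, h2.1, h2.2]
  -- the sets E
  have hEd : ∀ i, ∀ y ∈ EE α r k i, dist y (g (c i)) < ε (c i) := by
    intro i y hy
    have h1 := dist_le_of y (g (c i)) (k i) (r i) (hkr i).1.le (fun n hn => hy n hn)
    have h2 := (hkr i).2.2.2 (c i) (hc i)
    have h3 : (k i : ℝ) * r i ≤ k i * (2 * r i) := by
      have := (hkr i).1
      have h4 : (0 : ℝ) ≤ k i := Nat.cast_nonneg _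
      nlinarith
    linarith
  have hEZ : ∀ i, ∀ y ∈ EE α r k i, y ∉ Z := by
    intro i y hy hyZ
    have h1 := hEd i y hy
    have h2 := hεZ (c i) y hyZ
    rw [dist_comm] at h2
    have h3 := hpos (c i)
    linarith
  have hcf : ∀ x : O, ∃ N ∈ 𝓝 x, {i | c i ∈ N}.Finite := by
    intro x
    obtain ⟨N, hN, hf⟩ := hlf x.1 x.2
    refine ⟨Subtype.val ⁻¹' N, continuous_subtype_val.continuousAt.preimage_mem_nhds hN, ?_⟩
    have : (Subtype.val '' {i : ι | c i ∈ (Subtype.val ⁻¹' N : Set O)}).Finite := by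
      refine hf.subset ?_
      rintro _ ⟨i, hi, rfl⟩
      exact ⟨i.2, ⟨(c i : Q), hc i, hi⟩⟩
    exact this.of_finite_image Subtype.val_injective.injOn
  have hconf : ∀ z, z ∉ Z → ∃ N ∈ 𝓝 z, {i | (N ∩ EE α r k i).Nonempty}.Finite := by
    intro z hz
    obtain ⟨N, hN, hf⟩ := conf O Z hZ g hprop ε hεZ c hcf z hz
    refine ⟨N, hN, hf.subset ?_⟩
    rintro i ⟨y, hyN, hyE⟩
    exact ⟨y, hyN, hEd i y hyE⟩
  have hEcl : ∀ i, IsClosed (EE α r k i) := by
    intro i
    have e1 : EE α r k i = ⋂ n : ℕ, ⋂ _ : n < k i, {z : Q | |(z n : ℝ) - α i n| ≤ r i} := by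
      ext z
      simp only [EE, mem_iInter]
      exact Iff.rfl
    rw [e1]
    refine isClosed_iInter fun n => isClosed_iInter fun _ => ?_
    exact isClosed_le (((continuous_subtype_val.comp (continuous_apply n)).sub
      continuous_const).abs) continuous_const
  have hfin : ∀ i, {j | (EE α r k i ∩ EE α r k j).Nonempty}.Finite := by
    intro i
    have hK : IsCompact (EE α r k i) := (hEcl i).isCompact
    choose! N hN hf using hconf
    obtain ⟨t, ht, hcovt⟩ := hK.elim_nhds_subcover N (fun z hz => hN z (hEZ i z hz))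
    have h1 : (⋃ z ∈ t, {j | (N z ∩ EE α r k j).Nonempty}).Finite :=
      Set.Finite.biUnion t.finite_toSet (fun z hz => hf z (hEZ i z (ht z hz)))
    refine h1.subset ?_
    rintro j ⟨y, hy1, hy2⟩
    obtain ⟨z, hz, hyz⟩ := mem_iUnion₂.1 (hcovt hy1)
    exact mem_iUnion₂.2 ⟨z, hz, y, hyz, hy2⟩
  have : Countable ι := inferInstance
  obtain ⟨lo, hi, hlt, hfinr, hsub, hdis, hcl⟩ := exists_target adj hsymm hirr α r
    (fun i => (hkr i).1) k hadj hfin
  -- the two families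
  let B : ι → Set Q := fun i => boxx (T.lo i.1) (T.hi i.1)
  let D : ι → Set Q := fun i => boxx (lo i) (hi i)
  have hBO : ∀ i, B i ⊆ O := fun i => (hkr i).2.1
  let A : ι → Set O := fun i => Subtype.val ⁻¹' (B i)
  let X' : Set Q := ⋃ i, D i
  have hDX : ∀ i, D i ⊆ X' := fun i => subset_iUnion D i
  let A' : ι → Set X' := fun i => Subtype.val ⁻¹' (D i)
  have hbc : ∀ a b : Q, IsClosed (boxx a b) := by
    intro a b
    have e : boxx a b = ⋂ n : ℕ, ({x : Q | a n ≤ x n} ∩ {x : Q | x n ≤ b n}) := by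
      ext x
      simp only [mem_iInter]
      exact Iff.rfl
    rw [e]
    exact isClosed_iInter fun n => (isClosed_le continuous_const (continuous_apply n)).inter
      (isClosed_le (continuous_apply n) continuous_const)
  have hclq : ∀ S : Finset ι, S.Nonempty → ((∀ i ∈ S, ∀ j ∈ S, i ≠ j → adj i j) →
      (inter A S).Nonempty ∧ (inter A' S).Nonempty) := by
    intro S hS h
    constructor
    · obtain ⟨x, hx⟩ := helly (fun i : ι => T.lo i.1) (fun i : ι => T.hi i.1) S hS (by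
        intro i hi' j hj
        by_cases hij : i = j
        · subst hij
          rw [inter_self]
          exact T.P_nonempty i.1
        · exact (h i hi' j hj hij).2)
      obtain ⟨i, hi'⟩ := hS
      exact ⟨⟨x, hBO i (hx i hi')⟩, fun j hj => hx j hj⟩
    · obtain ⟨x, hx⟩ := (hcl S hS h).1
      obtain ⟨i, hi'⟩ := hS
      exact ⟨⟨x, hDX i (hx i hi')⟩, fun j hj => hx j hj⟩
  have hA : ∀ S : Finset ι, (inter A S).Nonempty → ∀ i ∈ S, ∀ j ∈ S, i ≠ j → adj i j := by
    rintro S ⟨x, hx⟩ i hi' j hj hij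
    exact ⟨hij, x.1, hx i hi', hx j hj⟩
  have hA' : ∀ S : Finset ι, (inter A' S).Nonempty → ∀ i ∈ S, ∀ j ∈ S, i ≠ j → adj i j := by
    rintro S ⟨x, hx⟩ i hi' j hj hij
    by_contra hcon
    have h1 := hdis i j hij hcon
    have h2 : (x : Q) ∈ boxx (lo i) (hi i) ∩ boxx (lo j) (hi j) := ⟨hx i hi', hx j hj⟩
    rw [h1] at h2
    exact h2
  have hlfA : LocallyFinite A := by
    intro x
    obtain ⟨N, hN, hf⟩ := hlf x.1 x.2
    refine ⟨Subtype.val ⁻¹' N, continuous_subtype_val.continuousAt.preimage_mem_nhds hN, ?_⟩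
    have : (Subtype.val '' {i : ι | (A i ∩ (Subtype.val ⁻¹' N : Set O)).Nonempty}).Finite := by
      refine hf.subset ?_
      rintro _ ⟨i, ⟨y, hy1, hy2⟩, rfl⟩
      exact ⟨i.2, ⟨(y : Q), hy1, hy2⟩⟩
    exact this.of_finite_image Subtype.val_injective.injOn
  have hlfA' : LocallyFinite A' := by
    intro x
    obtain ⟨i, hi'⟩ := mem_iUnion.1 x.2
    obtain ⟨N, hN, hf⟩ := hconf x.1 (hEZ i _ (hsub i hi'))
    refine ⟨Subtype.val ⁻¹' N, continuous_subtype_val.continuousAt.preimage_mem_nhds hN,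
      hf.subset ?_⟩
    rintro j ⟨y, hy1, hy2⟩
    exact ⟨y.1, hy2, hsub j hy1⟩
  obtain ⟨H, hH⟩ := glue_ctl A A' (fun i => (hbc _ _).preimage continuous_subtype_val)
    (fun i => (hbc _ _).preimage continuous_subtype_val) hlfA hlfA'
    (by
      intro x
      obtain ⟨v, hv, hxv⟩ := hcov x.1 x.2
      exact ⟨⟨v, hv⟩, hxv⟩)
    (by
      intro x
      obtain ⟨i, hi'⟩ := mem_iUnion.1 x.2
      exact ⟨i, hi'⟩)
    (by
      intro i
      have hK : IsCompact (A i) := by
        refine Topology.IsInducing.subtypeVal.isCompact_preimage' (T.P_compact i.1) ?_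
        rw [Subtype.range_coe]
        exact hBO i
      have h1 := hlfA.finite_nonempty_inter_compact hK
      refine h1.subset ?_
      rintro j ⟨y, hy1, hy2⟩
      exact ⟨y, hy2, hy1⟩)
    (fun S hS => ⟨fun h => (hclq S hS (hA S h)).2, fun h => (hclq S hS (hA' S h)).1⟩)
    (by
      intro S hS hne
      refine cbe_defic O B hBO S hS ?_
      obtain ⟨x, hx⟩ := hne
      refine fam_defic (fun i : ι => T.lo i.1) (fun i : ι => T.hi i.1)
        (fun i => T.finite_restr i.1) S hS ⟨x.1, fun i hi' => hx i hi'⟩ ?_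
      intro j hj y hyS hyj
      have h1 := T.strict (S.image Subtype.val) (hS.image _) j.1 (by
        intro s hs
        obtain ⟨i, hi', rfl⟩ := Finset.mem_image.1 hs
        have hij : i.1 ≠ j.1 := by
          intro h
          exact hj ((Subtype.ext h : i = j) ▸ hi')
        exact ⟨hanti i.1 i.2 j.1 j.2 hij, hanti j.1 j.2 i.1 i.2 hij.symm⟩) y (by
        intro s hs
        obtain ⟨i, hi', rfl⟩ := Finset.mem_image.1 hs
        exact hyS i hi') hyj
      obtain ⟨n, hn⟩ := h1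
      refine ⟨n, ?_⟩
      rcases hn with ⟨h1, ⟨s, hs, h2⟩, h3⟩ | ⟨h1, ⟨s, hs, h2⟩, h3⟩
      · left
        obtain ⟨i, hi', rfl⟩ := Finset.mem_image.1 hs
        exact ⟨fun i' hi'' => h1 i'.1 (Finset.mem_image_of_mem _ hi''), ⟨i, hi', h2⟩, h3⟩
      · right
        obtain ⟨i, hi', rfl⟩ := Finset.mem_image.1 hs
        exact ⟨fun i' hi'' => h1 i'.1 (Finset.mem_image_of_mem _ hi''), ⟨i, hi', h2⟩, h3⟩)
    (by
      intro S hS hne
      exact cbe_defic X' D hDX S hS (hcl S hS (hA' S hne)).2)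
  refine ⟨fun x => (H x : Q), continuous_subtype_val.comp H.continuous,
    Subtype.val_injective.comp H.injective, ?_, ?_⟩
  · intro x
    obtain ⟨v, hv, hxv⟩ := hcov x.1 x.2
    let i : ι := ⟨v, hv⟩
    have h1 : H x ∈ A' i := (hH i x).1 hxv
    have h2 : (H x : Q) ∈ EE α r k i := hsub i h1
    have h3 := dist_le_of (H x : Q) (g x) (k i) (2 * r i) (by linarith [(hkr i).1]) (by
      intro n hn
      have h4 := abs_le.1 (h2 n hn)
      have h5 := abs_lt.1 ((hkr i).2.2.1 (c i) x (hc i) hxv n hn)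
      have h6 : (α i n : ℝ) = g (c i) n := rfl
      rw [h6] at h4
      rw [abs_le]
      constructor <;> linarith [h4.1, h4.2, h5.1, h5.2])
    have h4 := (hkr i).2.2.2 x hxv
    linarith
  · refine ⟨{C | ∃ i : ι, w <:+ i.1 ∧ C = D i}, ?_, ?_, ?_⟩
    · rintro _ ⟨i, -, rfl⟩
      exact ⟨lo i, hi i, hlt i, hfinr i, rfl⟩
    · rintro _ ⟨i, -, rfl⟩
      have h1 : {j | (D i ∩ D j).Nonempty}.Finite := by
        refine (hfin i).subset ?_
        rintro j ⟨y, hy1, hy2⟩
        exact ⟨y, hsub i hy1, hsub j hy2⟩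
      refine (h1.image D).subset ?_
      rintro _ ⟨⟨j, -, rfl⟩, hne⟩
      exact ⟨j, hne, rfl⟩
    · ext y
      constructor
      · rintro ⟨x, hx, rfl⟩
        obtain ⟨v, hv, hwv, hxv⟩ := hcov1 w rfl x.1 x.2 hx
        exact ⟨D ⟨v, hv⟩, ⟨⟨v, hv⟩, hwv, rfl⟩, (hH ⟨v, hv⟩ x).1 hxv⟩
      · rintro ⟨_, ⟨i, hwi, rfl⟩, hy⟩
        have hyX : y ∈ X' := hDX i hy
        refine ⟨H.symm ⟨y, hyX⟩, ?_, by
          show ((H (H.symm ⟨y, hyX⟩) : X') : Q) = y
          rw [H.apply_symm_apply]⟩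
        have h1 : H.symm ⟨y, hyX⟩ ∈ A i := by
          rw [hH i, H.apply_symm_apply]
          exact hy
        exact T.P_mono hwi h1

end Pool.Agent.H56.SR
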