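import Mathlib
import Pool.Agent.H56.SR.Basic
import Pool.Agent.H56.SR.TreeA

set_option autoImplicit false

/-!
# SR-13: cells

`C_compact`: image of the compact set `P w` under the continuous map `V → U → M`.
`exists_cells`: for `x` with chart `φ : U ≃ₜ V`: by `Tree.small` (with `H = V`) there are an open `G ∋ φ x` and `m` such
that every node of length `m` meeting `G` has its box in `V`; the cells of these finitely many nodes (words of
length `m`) cover `φ⁻¹(G)` (`exists_mem`), an open neighbourhood of `x`.  Second countability (Lindelöf: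
`TopologicalSpace.countable_cover_nhds`) gives countably many points; enumerate the resulting countable
set of cells by `ℕ` (it is nonempty as `M` is nonempty).
-/

namespace Pool.Agent.H56.SR

open unitInterval Set Topology Pool.Agent.H56.SQ

theorem Cell.C_subset {T : Tree} {M : Type} [TopologicalSpace M] (c : Cell T M) : c.C ⊆ c.U := by
  rintro x ⟨h, -⟩
  exact h

/-- the parametrisation of a cell -/
def Cell.par {T : Tree} {M : Type} [TopologicalSpace M] (c : Cell T M) (z : T.P c.w) : M :=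
  (c.φ.symm ⟨z, c.hw z.2⟩ : c.U)

theorem Cell.par_continuous {T : Tree} {M : Type} [TopologicalSpace M] (c : Cell T M) :
    Continuous c.par :=
  continuous_subtype_val.comp (c.φ.symm.continuous.comp
    (continuous_subtype_val.subtype_mk fun z => c.hw z.2))

theorem Cell.C_eq_range {T : Tree} {M : Type} [TopologicalSpace M] (c : Cell T M) :
    c.C = range c.par := by
  ext x
  constructor
  · rintro ⟨h, hx⟩
    refine ⟨⟨((c.φ ⟨x, h⟩ : c.V) : Q), hx⟩, ?_⟩
    show ((c.φ.symm (c.φ ⟨x, h⟩) : c.U) : M) = x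
    rw [c.φ.symm_apply_apply]
  · rintro ⟨z, rfl⟩
    refine ⟨(c.φ.symm ⟨z, c.hw z.2⟩).2, ?_⟩
    show ((c.φ (c.φ.symm ⟨z, c.hw z.2⟩) : c.V) : Q) ∈ T.P c.w
    rw [c.φ.apply_symm_apply]
    exact z.2

theorem Cell.C_compact {T : Tree} {M : Type} [TopologicalSpace M] (c : Cell T M) : IsCompact c.C := by
  have : CompactSpace (T.P c.w) := isCompact_iff_compactSpace.1 (T.P_compact c.w)
  rw [c.C_eq_range]
  exact isCompact_range c.par_continuous

theorem Cell.C_nonempty {T : Tree} {M : Type} [TopologicalSpace M] (c : Cell T M) : c.C.Nonempty := by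
  obtain ⟨z, hz⟩ := T.P_nonempty c.w
  rw [c.C_eq_range]
  exact ⟨_, ⟨⟨z, hz⟩, rfl⟩⟩

theorem locallyCompact_of_charts (M : Type) [TopologicalSpace M]
    [TopologicalSpace.MetrizableSpace M]
    (hM : ∀ x : M, ∃ U : Set M, IsOpen U ∧ x ∈ U ∧
      ∃ V : Set (ℕ → Set.Icc (0:ℝ) 1), IsOpen V ∧ Nonempty (U ≃ₜ V)) : LocallyCompactSpace M := by
  refine ⟨fun x N hN => ?_⟩
  obtain ⟨U, hU, hx, V, hV, ⟨φ⟩⟩ := hM x
  have hLV : LocallyCompactSpace U :=
    (hV.isOpenEmbedding_subtypeVal.comp φ.isOpenEmbedding).locallyCompactSpace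
  have h1 : (Subtype.val ⁻¹' N : Set U) ∈ 𝓝 (⟨x, hx⟩ : U) :=
    continuous_subtype_val.continuousAt.preimage_mem_nhds hN
  obtain ⟨K, hK, hKN, hKc⟩ := hLV.local_compact_nhds (⟨x, hx⟩ : U) _ h1
  refine ⟨Subtype.val '' K, ?_, ?_, hKc.image continuous_subtype_val⟩
  · exact hU.isOpenEmbedding_subtypeVal.isOpenMap.image_mem_nhds hK
  · rintro _ ⟨y, hy, rfl⟩
    exact hKN hy

theorem exists_cells_nhds (T : Tree) (M : Type) [TopologicalSpace M]
    (hM : ∀ x : M, ∃ U : Set M, IsOpen U ∧ x ∈ U ∧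
      ∃ V : Set (ℕ → Set.Icc (0:ℝ) 1), IsOpen V ∧ Nonempty (U ≃ₜ V)) (x : M) :
    ∃ 𝒞 : Set (Cell T M), 𝒞.Finite ∧ (⋃ c ∈ 𝒞, c.C) ∈ 𝓝 x := by
  obtain ⟨U, hU, hx, V, hV, ⟨φ⟩⟩ := hM x
  set y : Q := ((φ ⟨x, hx⟩ : V) : Q) with hy
  obtain ⟨G, hG, m, hm⟩ := T.small y V (hV.mem_nhds (φ ⟨x, hx⟩).2)
  -- words
  have hfin : {w : List Bool | w.length = m}.Finite := List.finite_length_eq Bool m
  classical
  let mk : {w : List Bool // w.length = m ∧ (T.P w ∩ G).Nonempty} → Cell T M := fun w =>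
    ⟨U, V, hU, hV, φ, w.1, hm w.1 w.2.1.ge w.2.2⟩
  have hfin2 : {w : List Bool | w.length = m ∧ (T.P w ∩ G).Nonempty}.Finite :=
    hfin.subset fun w hw => hw.1
  have : Finite {w : List Bool // w.length = m ∧ (T.P w ∩ G).Nonempty} := hfin2.to_subtype
  refine ⟨range mk, finite_range mk, ?_⟩
  -- the neighbourhood
  have h1 : (fun u : U => ((φ u : V) : Q)) ⁻¹' G ∈ 𝓝 (⟨x, hx⟩ : U) :=
    (continuous_subtype_val.comp φ.continuous).continuousAt.preimage_mem_nhds hG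
  have h2 : Subtype.val '' ((fun u : U => ((φ u : V) : Q)) ⁻¹' G) ∈ 𝓝 x :=
    hU.isOpenEmbedding_subtypeVal.isOpenMap.image_mem_nhds h1
  refine Filter.mem_of_superset h2 ?_
  rintro _ ⟨u, hu, rfl⟩
  obtain ⟨w, hw, hxw⟩ := T.exists_mem ((φ u : V) : Q) m
  refine mem_biUnion (mem_range_self (⟨w, hw, ⟨_, hxw, hu⟩⟩ :
    {w : List Bool // w.length = m ∧ (T.P w ∩ G).Nonempty})) ?_
  exact ⟨u.2, hxw⟩

theorem exists_cells (T : Tree) (M : Type) [TopologicalSpace M] [TopologicalSpace.SeparableSpace M]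
    [TopologicalSpace.MetrizableSpace M] [Nonempty M]
    (hM : ∀ x : M, ∃ U : Set M, IsOpen U ∧ x ∈ U ∧
      ∃ V : Set (ℕ → Set.Icc (0:ℝ) 1), IsOpen V ∧ Nonempty (U ≃ₜ V)) :
    ∃ c : ℕ → Cell T M, ∀ x, ∃ n, (⋃ i ∈ Finset.range n, (c i).C) ∈ 𝓝 x := by
  have hsc : SecondCountableTopology M := by
    let _ := TopologicalSpace.metrizableSpaceMetric M
    exact UniformSpace.secondCountable_of_separable M
  choose 𝒞 hfin hnhds using exists_cells_nhds T M hM
  obtain ⟨s, hs, hcov⟩ := TopologicalSpace.countable_cover_nhds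
    (f := fun x => interior (⋃ c ∈ 𝒞 x, c.C)) fun x => interior_mem_nhds.2 (hnhds x)
  have hcount : (⋃ x ∈ s, 𝒞 x).Countable := hs.biUnion fun x _ => (hfin x).countable
  have hne : (⋃ x ∈ s, 𝒞 x).Nonempty := by
    obtain ⟨x₀⟩ := ‹Nonempty M›
    have h1 : x₀ ∈ ⋃ x ∈ s, interior (⋃ c ∈ 𝒞 x, c.C) := by rw [hcov]; exact mem_univ _
    obtain ⟨x, hx, h2⟩ := mem_iUnion₂.1 h1
    obtain ⟨c, hc, -⟩ := mem_iUnion₂.1 (interior_subset h2)
    exact ⟨c, mem_biUnion hx hc⟩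
  obtain ⟨c, hc⟩ := hcount.exists_eq_range hne
  refine ⟨c, fun x => ?_⟩
  have h1 : x ∈ ⋃ x ∈ s, interior (⋃ c ∈ 𝒞 x, c.C) := by rw [hcov]; exact mem_univ _
  obtain ⟨x', hx', h2⟩ := mem_iUnion₂.1 h1
  -- indices
  have h3 : ∀ d ∈ 𝒞 x', ∃ i, c i = d := by
    intro d hd
    have h4 : d ∈ ⋃ x ∈ s, 𝒞 x := mem_biUnion hx' hd
    rw [hc] at h4
    exact h4
  choose! g hg using h3
  obtain ⟨n, hn⟩ := ((hfin x').image g).bddAbove
  refine ⟨n + 1, ?_⟩
  have h4 : (⋃ d ∈ 𝒞 x', d.C) ∈ 𝓝 x := mem_interior_iff_mem_nhds.1 h2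
  refine Filter.mem_of_superset h4 ?_
  refine iUnion₂_subset fun d hd => ?_
  have h5 : g d ≤ n := hn (mem_image_of_mem g hd)
  rw [← hg d hd]
  exact subset_biUnion_of_mem (u := fun i => (c i).C)
    (show g d ∈ (Finset.range (n + 1)) from Finset.mem_range.2 (by
      omega))

end Pool.Agent.H56.SR
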