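import Mathlib
import Pool.Agent.H56.SR.Basic
import Pool.Agent.H56.SR.MetricQ

set_option autoImplicit false

/-!
# SR-11: good maps

`closed_image`: a limit `z` of points `F x_k`, `x_k ∈ A`, with `z 0 < 1`: `x_k` in the compact set
`{F x 0 ≤ (1 + z 0) / 2}` eventually; filter proof: for `z 0 < c < 1` the set `F '' (A ∩ {F x 0 ≤ c})` is compact,
so closed, and agrees with `F '' A` on the open set `{z 0 < c}`.
`isEmbedding`: for closed `A` and `x ∉ A`: `F x ∉ F '' A ∪ {z 0 = 1}` closed; so `F` is inducing.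
`of_close`: `F x 0 ≤ c` gives `F0 x 0 ≤ (2 c + 1) / 3 < 1`; a closed subset of a compact set.
-/

namespace Pool.Agent.H56.SR

open unitInterval Set Topology Pool.Agent.H56.SQ
open scoped PiCountable

theorem closed_image {M : Type} [TopologicalSpace M] (F : M → Q) (hF : Continuous F)
    (hc : ∀ c : ℝ, c < 1 → IsCompact {x | (F x 0 : ℝ) ≤ c})
    (A : Set M) (hA : IsClosed A) : IsClosed (F '' A ∪ {z : Q | z 0 = 1}) := by
  rw [← isOpen_compl_iff, isOpen_iff_mem_nhds]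
  intro z hz
  have hz1 : z ∉ F '' A := fun h => hz (Or.inl h)
  have hz2 : z 0 ≠ 1 := fun h => hz (Or.inr h)
  have hz3 : (z 0 : ℝ) < 1 := by
    refine lt_of_le_of_ne (z 0).2.2 fun h => hz2 ?_
    exact Subtype.ext h
  set c : ℝ := (1 + z 0) / 2 with hcdef
  have hc1 : c < 1 := by rw [hcdef]; linarith
  have hc2 : (z 0 : ℝ) < c := by rw [hcdef]; linarith
  have hK : IsCompact (A ∩ {x | (F x 0 : ℝ) ≤ c}) := (hc c hc1).inter_left hA
  have hFK : IsClosed (F '' (A ∩ {x | (F x 0 : ℝ) ≤ c})) := (hK.image hF).isClosed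
  have hO1 : IsOpen {y : Q | (y 0 : ℝ) < c} :=
    isOpen_lt (continuous_subtype_val.comp (continuous_apply 0)) continuous_const
  have hO : IsOpen ({y : Q | (y 0 : ℝ) < c} ∩ (F '' (A ∩ {x | (F x 0 : ℝ) ≤ c}))ᶜ) :=
    hO1.inter hFK.isOpen_compl
  refine Filter.mem_of_superset (hO.mem_nhds ⟨hc2, ?_⟩) ?_
  · rintro ⟨x, hx, rfl⟩
    exact hz1 ⟨x, hx.1, rfl⟩
  · rintro y ⟨hy1, hy2⟩ (⟨x, hx, rfl⟩ | hy)
    · exact hy2 ⟨x, ⟨hx, le_of_lt (show (F x 0 : ℝ) < c from hy1)⟩, rfl⟩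
    · have hy3 : y 0 = 1 := hy
      have hy4 : (y 0 : ℝ) < c := hy1
      rw [hy3] at hy4
      have h5 : ((1 : I) : ℝ) = 1 := rfl
      rw [h5] at hy4
      linarith

theorem Good.isEmbedding {M : Type} [TopologicalSpace M] {F : M → Q} (h : Good F) :
    Topology.IsEmbedding F := by
  obtain ⟨hF, hinj, hlt, hc⟩ := h
  refine ⟨?_, hinj⟩
  rw [Topology.isInducing_iff_nhds]
  intro x
  refine le_antisymm (hF.tendsto x).le_comap ?_
  intro U hU
  obtain ⟨V, hVU, hV, hxV⟩ := mem_nhds_iff.1 hU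
  have hcl : IsClosed (F '' Vᶜ ∪ {z : Q | z 0 = 1}) := closed_image F hF hc Vᶜ hV.isClosed_compl
  have hmem : F x ∈ (F '' Vᶜ ∪ {z : Q | z 0 = 1})ᶜ := by
    rintro (⟨y, hy, hyx⟩ | hx)
    · exact hy (hinj hyx ▸ hxV)
    · have h1 : F x 0 = 1 := hx
      have h2 := hlt x
      rw [h1] at h2
      exact lt_irrefl _ h2
  refine Filter.mem_comap.2 ⟨_, hcl.isOpen_compl.mem_nhds hmem, ?_⟩
  intro y hy
  by_contra hyU
  exact hy (Or.inl ⟨y, fun hyV => hyU (hVU hyV), rfl⟩)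

theorem compact_of_close {M : Type} [TopologicalSpace M] {F0 F : M → Q}
    (hc0 : ∀ c : ℝ, c < 1 → IsCompact {x | (F0 x 0 : ℝ) ≤ c})
    (hF : Continuous F) (h : ∀ x, |(F x 0 : ℝ) - F0 x 0| ≤ (1 - F0 x 0) / 2) :
    ∀ c : ℝ, c < 1 → IsCompact {x | (F x 0 : ℝ) ≤ c} := by
  intro c hc
  have h1 : (2 * c + 1) / 3 < 1 := by linarith
  refine (hc0 _ h1).of_isClosed_subset ?_ ?_
  · exact isClosed_le (continuous_subtype_val.comp ((continuous_apply 0).comp hF))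
      continuous_const
  · intro x hx
    have hx1 : (F x 0 : ℝ) ≤ c := hx
    have h2 := (abs_le.1 (h x)).1
    change (F0 x 0 : ℝ) ≤ (2 * c + 1) / 3
    linarith

theorem Good.of_close {M : Type} [TopologicalSpace M] {F0 F : M → Q} (h0 : Good F0)
    (hF : Continuous F) (hinj : Function.Injective F)
    (h : ∀ x, |(F x 0 : ℝ) - F0 x 0| ≤ (1 - F0 x 0) / 2) : Good F := by
  refine ⟨hF, hinj, fun x => ?_, compact_of_close h0.2.2.2 hF h⟩
  have h1 := h0.2.2.1 x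
  have h2 := (abs_le.1 (h x)).2
  linarith

end Pool.Agent.H56.SR
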