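import Mathlib
import Pool.Agent.H56.SR.Basic
import Pool.Agent.H56.SR.Cells
import Pool.Agent.H56.SR.GoodA
import Pool.Agent.H56.SR.CBE

set_option autoImplicit false

/-!
# SR-15: controlled box embedding in a chart of `M`

`O = {y : Q | ∃ h : y ∈ c.V, (c.φ.symm ⟨y, h⟩ : M) ∉ A}` is open; `p : O → M`, `p y = c.φ.symm ⟨y, _⟩` is continuous,
with values in `c.U \ A`, and gives a homeomorphism `O ≃ₜ (c.U \ A)`.  `g = F ∘ p`, `Z` = the set in `hZ` (closed by
`closed_image`, since `(c.U \ A)ᶜ` is closed).  Proper: `K` compact, disjoint from `Z`: `F ⁻¹' K` is closed and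
contained in `{F x 0 ≤ c}` with `c < 1` (the coordinate `0` has a maximum on `K`, which is `< 1`; `K` empty is
trivial), so compact; it is contained in `c.U \ A`; `g ⁻¹' K` is its image under the homeomorphism.
Apply `cbe` with `w = c.w` and transport.
-/

namespace Pool.Agent.H56.SR

open unitInterval Set Topology Pool.Agent.H56.SQ
open scoped PiCountable

/-- the homeomorphism between `c.U \ A` and its image in `Q` -/
theorem chart_homeo {M : Type} [TopologicalSpace M] {T : Tree} (c : Cell T M) (A : Set M)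
    (hA : IsClosed A) : ∃ (O : Set Q) (e : (c.U \ A : Set M) ≃ₜ O), IsOpen O ∧
      ∀ x : (c.U \ A : Set M), ((e x : O) : Q) = ((c.φ ⟨x, x.2.1⟩ : c.V) : Q) := by
  refine ⟨{y : Q | ∃ h : y ∈ c.V, ((c.φ.symm ⟨y, h⟩ : c.U) : M) ∉ A},
    { toFun := fun x => ⟨((c.φ ⟨x, x.2.1⟩ : c.V) : Q), (c.φ ⟨x, x.2.1⟩).2, by
        rw [Subtype.coe_eta, Homeomorph.symm_apply_apply]; exact x.2.2⟩
      invFun := fun y => ⟨((c.φ.symm ⟨y, y.2.1⟩ : c.U) : M), (c.φ.symm ⟨y, y.2.1⟩).2, y.2.2⟩
      left_inv := fun x => by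
        apply Subtype.ext
        simp
      right_inv := fun y => by
        apply Subtype.ext
        simp
      continuous_toFun := ?_
      continuous_invFun := ?_ }, ?_, fun x => rfl⟩
  · exact Continuous.subtype_mk (continuous_subtype_val.comp (c.φ.continuous.comp
      (Continuous.subtype_mk continuous_subtype_val _))) _
  · exact Continuous.subtype_mk (continuous_subtype_val.comp (c.φ.symm.continuous.comp
      (Continuous.subtype_mk continuous_subtype_val _))) _
  · have h1 : IsOpen {v : c.V | ((c.φ.symm v : c.U) : M) ∈ Aᶜ} :=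
      hA.isOpen_compl.preimage (continuous_subtype_val.comp c.φ.symm.continuous)
    have h2 := c.hV.isOpenMap_subtype_val _ h1
    convert h2 using 1
    ext y
    constructor
    · rintro ⟨h, hy⟩
      exact ⟨⟨y, h⟩, hy, rfl⟩
    · rintro ⟨v, hv, rfl⟩
      exact ⟨v.2, hv⟩

theorem chart_cbe {M : Type} [TopologicalSpace M] (T : Tree) (c : Cell T M) (A : Set M)
    (hA : IsClosed A) (F : M → Q) (hF : Good F) (ε : M → ℝ) (hε : Continuous ε)
    (hpos : ∀ x ∈ c.U \ A, 0 < ε x)
    (hZ : ∀ x ∈ c.U \ A, ∀ z ∈ F '' (c.U \ A)ᶜ ∪ {z : Q | z 0 = 1}, 2 * ε x ≤ dist (F x) z) :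
    ∃ f : (c.U \ A : Set M) → Q, Continuous f ∧ Function.Injective f ∧
      (∀ x : (c.U \ A : Set M), dist (f x) (F x) < ε x) ∧
      Boxy (f '' {x : (c.U \ A : Set M) | (x : M) ∈ c.C}) := by
  obtain ⟨O, e, hO, he⟩ := chart_homeo c A hA
  have hopen : IsOpen (c.U \ A) := c.hU.sdiff hA
  have hZc : IsClosed (F '' (c.U \ A)ᶜ ∪ {z : Q | z 0 = 1}) :=
    closed_image F hF.1 hF.2.2.2 _ hopen.isClosed_compl
  have hg : Continuous (fun y : O => F ((e.symm y : (c.U \ A : Set M)) : M)) :=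
    hF.1.comp (continuous_subtype_val.comp e.symm.continuous)
  have hprop : ∀ K : Set Q, IsCompact K → Disjoint K (F '' (c.U \ A)ᶜ ∪ {z : Q | z 0 = 1}) →
      IsCompact ((fun y : O => F ((e.symm y : (c.U \ A : Set M)) : M)) ⁻¹' K) := by
    intro K hK hKZ
    rcases K.eq_empty_or_nonempty with rfl | hne
    · simp
    have hco : ContinuousOn (fun z : Q => ((z 0 : I) : ℝ)) K := by fun_prop
    obtain ⟨k, hk, hmax⟩ := hK.exists_isMaxOn hne hco
    have hk1 : ((k 0 : I) : ℝ) < 1 := by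
      refine lt_of_le_of_ne (k 0).2.2 fun h => ?_
      exact (Set.disjoint_left.1 hKZ hk) (Or.inr (Subtype.ext h))
    have hc1 := hF.2.2.2 _ hk1
    have hcl : IsClosed (F ⁻¹' K) := hK.isClosed.preimage hF.1
    have hcomp : IsCompact (F ⁻¹' K) := hc1.of_isClosed_subset hcl fun x hx => hmax hx
    have hsub : F ⁻¹' K ⊆ Set.range (Subtype.val : (c.U \ A : Set M) → M) := by
      intro x hx
      rw [Subtype.range_coe]
      by_contra hxn
      exact (Set.disjoint_left.1 hKZ hx) (Or.inl ⟨x, hxn, rfl⟩)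
    have h3 : IsCompact ((Subtype.val : (c.U \ A : Set M) → M) ⁻¹' (F ⁻¹' K)) :=
      (Topology.IsInducing.subtypeVal.isCompact_preimage_iff hsub).2 hcomp
    have h4 := e.symm.isCompact_preimage.2 h3
    exact h4
  obtain ⟨f, hfc, hfi, hfd, hfb⟩ := cbe T O hO c.w _ hZc
    (fun y : O => F ((e.symm y : (c.U \ A : Set M)) : M)) hg hprop
    (fun y : O => ε ((e.symm y : (c.U \ A : Set M)) : M))
    (hε.comp (continuous_subtype_val.comp e.symm.continuous))
    (fun y => hpos _ (e.symm y).2) (fun y z hz => hZ _ (e.symm y).2 z hz)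
  refine ⟨fun x => f (e x), hfc.comp e.continuous, hfi.comp e.injective, fun x => ?_, ?_⟩
  · have h := hfd (e x)
    simpa using h
  · convert hfb using 1
    ext z
    constructor
    · rintro ⟨x, ⟨h, hx⟩, rfl⟩
      refine ⟨e x, ?_, rfl⟩
      show ((e x : O) : Q) ∈ T.P c.w
      rw [he x]
      exact hx
    · rintro ⟨y, hy, rfl⟩
      refine ⟨e.symm y, ⟨(e.symm y).2.1, ?_⟩, by simp⟩
      rw [← he (e.symm y), e.apply_symm_apply]
      exact hy

end Pool.Agent.H56.SR
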