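import Mathlib
import Pool.Agent.H56.SR.Basic

set_option autoImplicit false

/-!
# SR-12: existence of a good map

`M` is locally compact, second countable, metrizable, so sigma-compact.  `K : CompactExhaustion M`
(`K n ⊆ interior (K (n+1))`).  `u n : M → I` continuous, `0` on `K n`, `1` outside `interior (K (n+1))` (Urysohn,
normal space).  `ρ x = ∑' n, (1/2)^(n+1) * u n x` continuous, `ρ x ≤ 1 - (1/2)^n < 1` on `K n`, `ρ x ≥ 1 - (1/2)^(n+1)`
outside `K (n+1)`; so `{ρ ≤ c}` is closed and inside some `K (n+1)`.  `F x 0 = ρ x`, `F x (n+1) = G x n` with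
`G : M → Q` an embedding (mathlib: `exists_embedding_to_hilbert_cube`, in
`Mathlib/Topology/MetricSpace/PiNat.lean`, or distances to a dense sequence).
-/

namespace Pool.Agent.H56.SR

open unitInterval Set Topology Pool.Agent.H56.SQ

/-- a proper function into `[0,1)` -/
theorem exists_proper (M : Type) [TopologicalSpace M] [NormalSpace M] [T2Space M]
    [SigmaCompactSpace M] [LocallyCompactSpace M] : ∃ ρ : M → ℝ, Continuous ρ ∧
      (∀ x, 0 ≤ ρ x) ∧ (∀ x, ρ x < 1) ∧ ∀ c : ℝ, c < 1 → IsCompact {x | ρ x ≤ c} := by
  have K : CompactExhaustion M := CompactExhaustion.choice M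
  have hu : ∀ n : ℕ, ∃ f : C(M, ℝ), EqOn f 0 (K n) ∧ EqOn f 1 (interior (K (n + 1)))ᶜ ∧
      ∀ x, f x ∈ Icc (0 : ℝ) 1 := by
    intro n
    apply exists_continuous_zero_one_of_isClosed (K.isCompact n).isClosed
      isOpen_interior.isClosed_compl
    rw [disjoint_compl_right_iff_subset]
    exact K.subset_interior_succ n
  choose u hu0 hu1 hu01 using hu
  let a : ℕ → ℝ := fun n => 1 / 2 / 2 ^ n
  have ha0 : ∀ n, 0 < a n := fun n => by positivity
  have has : HasSum a 1 := hasSum_geometric_two' 1
  have hle : ∀ n x, a n * u n x ≤ a n := fun n x => by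
    have := (hu01 n x).2
    calc a n * u n x ≤ a n * 1 := mul_le_mul_of_nonneg_left this (ha0 n).le
      _ = a n := mul_one _
  have hge : ∀ n x, 0 ≤ a n * u n x := fun n x => mul_nonneg (ha0 n).le (hu01 n x).1
  have hsum : ∀ x, Summable (fun n => a n * u n x) := fun x =>
    Summable.of_nonneg_of_le (fun n => hge n x) (fun n => hle n x) has.summable
  refine ⟨fun x => ∑' n, a n * u n x, ?_, ?_, ?_, ?_⟩
  · refine continuous_tsum (fun n => continuous_const.mul (u n).continuous) has.summable ?_
    intro n x
    rw [Real.norm_of_nonneg (hge n x)]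
    exact hle n x
  · intro x
    exact tsum_nonneg (fun n => hge n x)
  · intro x
    obtain ⟨m, hm⟩ := K.exists_mem x
    rw [← has.tsum_eq]
    refine Summable.tsum_lt_tsum (i := m) (fun n => hle n x) ?_ (hsum x) has.summable
    have : u m x = 0 := hu0 m hm
    simp only [this, mul_zero]
    exact ha0 m
  · intro c hc
    have ht := has.tendsto_sum_nat
    obtain ⟨m, hm⟩ := (ht.eventually (lt_mem_nhds hc)).exists
    apply (K.isCompact m).of_isClosed_subset
    · apply isClosed_le _ continuous_const
      refine continuous_tsum (fun n => continuous_const.mul (u n).continuous) has.summable ?_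
      intro n x
      rw [Real.norm_of_nonneg (hge n x)]
      exact hle n x
    · intro x hx
      by_contra hxm
      have h1 : ∑ n ∈ Finset.range m, a n ≤ ∑' n, a n * u n x := by
        calc ∑ n ∈ Finset.range m, a n = ∑ n ∈ Finset.range m, a n * u n x := by
              apply Finset.sum_congr rfl
              intro n hn
              rw [Finset.mem_range] at hn
              have h2 : x ∈ (interior (K (n + 1)))ᶜ := by
                intro h3
                exact hxm (K.subset (by omega : n + 1 ≤ m) (interior_subset h3))
              have h4 : u n x = 1 := hu1 n h2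
              rw [h4, mul_one]
          _ ≤ _ := (hsum x).sum_le_tsum _ (fun n _ => hge n x)
      have h5 : ∑' n, a n * u n x ≤ c := hx
      linarith

theorem exists_good (M : Type) [TopologicalSpace M] [TopologicalSpace.SeparableSpace M]
    [TopologicalSpace.MetrizableSpace M] [LocallyCompactSpace M] : ∃ F : M → Q, Good F := by
  let _ : MetricSpace M := TopologicalSpace.metrizableSpaceMetric M
  have : SecondCountableTopology M := UniformSpace.secondCountable_of_separable M
  obtain ⟨G, hG⟩ := Metric.PiNatEmbed.exists_embedding_to_hilbert_cube (X := M)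
  obtain ⟨ρ, hρ, hρ0, hρ1, hρc⟩ := exists_proper M
  refine ⟨fun x n => Nat.casesOn n ⟨ρ x, hρ0 x, (hρ1 x).le⟩ (fun k => G x k), ?_, ?_, ?_, ?_⟩
  · apply continuous_pi
    intro n
    cases n with
    | zero => exact hρ.subtype_mk _
    | succ k => exact (continuous_apply k).comp hG.continuous
  · intro x y hxy
    apply hG.injective
    funext k
    exact congrFun hxy (k + 1)
  · intro x
    exact hρ1 x
  · intro c hc
    exact hρc c hc

end Pool.Agent.H56.SR
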