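import Mathlib
import Pool.Agent.H56.SR.Basic
import Pool.Agent.H56.SR.Cells
import Pool.Agent.H56.SR.GoodA
import Pool.Agent.H56.SR.MetricQ
import Pool.Agent.H56.SR.Approx
import Pool.Agent.H56.SR.Chart

set_option autoImplicit false

/-!
# SR-16: the inductive step (note 2608, section 5)

`u : M → I` continuous, `0` on `C = c.C` (closed), `1` off `c.U` (Urysohn).
`ε x = 1/2 * min (η x) (min (infDist (F x) Z) (max (infDist (F x) (F '' C)) (infDist (F x) (F '' {u ≥ 1/3} ∪ {z | z 0 = 1}))))`,
`Z = F '' (c.U \ A)ᶜ ∪ {z | z 0 = 1}` (closed, nonempty).  `ε > 0` on `c.U \ A`: `F` is an embedding (`Good.isEmbedding`),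
`closed_image`, `C` compact nonempty.  `chart_cbe` gives `f`.  `l = clamp (3 u - 1) : M → I`.
`m x = cvx (l x) (f x) (F x)` on `c.U \ A`, `m = F` elsewhere.  Continuous on `M`: (a) near a point of `c.U \ A` clear;
(b) near a point `a ∉ c.U`, `a ∉ A`: `u > 2/3` near `a`, there `m = F`; (c) at `a ∈ A`:
`dist (m x) (F x) ≤ ε x ≤ dist (F x) (F a) / 2` for `x ∈ c.U \ A` (as `F a ∈ Z`), and `m x = F x` otherwise.
`Y = m '' (A ∪ C) ∪ {z | z 0 = 1}` is closed (`closed_image`, `compact_of_close`).
For `x ∉ A ∪ C`: `m x ∉ Y`: (i) `m x 0 < 1`; (ii) `m x ≠ F a`, `a ∈ A`: if `x ∈ c.U`, `dist (m x) (F x) ≤ ε x < dist (F x) (F a)`,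
else injectivity of `F`; (iii) `x' ∈ C \ A`, `m x' = f x'` (`u x' = 0`): if `u x < 1/3` (so `x ∈ c.U`): `m x = f x ≠ f x'`;
if `u x ≥ 1/3`: `ε x' ≤ dist (F x') (F x) / 2` and, if `x ∈ c.U`, `ε x ≤ dist (F x) (F x') / 2`, with strict closeness.
`inj_approx` on the subtype `N = (A ∪ C)ᶜ` with `θ = F`, `m`, `δ x = 1/2 * min (η x) (infDist (m x) Y)` gives `m'`.
`F' = m` on `A ∪ C`, `m'` on `N`.  Continuity at `a ∈ A ∪ C`: `dist (m' x) (m x) < infDist (m x) Y / 2 ≤ dist (m x) (m a) / 2`.
Injective: `m` on `A ∪ C` (`F` on `A`; `f` on `C \ A`; `f x' ≠ F a` by `hZ`), `m'` on `N`, and `m' x ∉ Y`.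
`F' '' (C \ A) = f '' {x | x ∈ C}`.  Good: `Good.of_close` with `η x ≤ (1 - F x 0) / 2`.
-/

namespace Pool.Agent.H56.SR

open unitInterval Set Topology Pool.Agent.H56.SQ
open scoped PiCountable

/-- the clamp of `3 s - 1` -/
noncomputable def Step_l (s : ℝ) : I :=
  ⟨max 0 (min 1 (3 * s - 1)), le_max_left _ _, max_le zero_le_one (min_le_left _ _)⟩

theorem Step_l_cont : Continuous Step_l := by
  unfold Step_l
  exact Continuous.subtype_mk (by fun_prop) _

theorem Step_l_zero {s : ℝ} (h : s ≤ 1 / 3) : Step_l s = 0 := by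
  apply Subtype.ext
  show max 0 (min 1 (3 * s - 1)) = (0 : ℝ)
  rw [max_eq_left]
  exact (min_le_right _ _).trans (by linarith)

/-- continuity at a point from a distance estimate -/
theorem Step_cont_of_dist {M : Type} [TopologicalSpace M] (m F : M → Q) (a : M)
    (hF : ContinuousAt F a) (ha : m a = F a)
    (h : ∀ x, dist (m x) (F x) ≤ dist (F x) (F a)) : ContinuousAt m a := by
  have h1 : Filter.Tendsto (fun x => dist (F x) (F a)) (𝓝 a) (𝓝 0) :=
    tendsto_iff_dist_tendsto_zero.1 hF
  refine tendsto_iff_dist_tendsto_zero.2 ?_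
  refine squeeze_zero (fun _ => dist_nonneg) (fun x => ?_)
    (show Filter.Tendsto (fun x => 2 * dist (F x) (F a)) (𝓝 a) (𝓝 0) by
      simpa using h1.const_mul 2)
  have h2 := dist_triangle (m x) (F x) (m a)
  rw [ha] at h2 ⊢
  have h3 := h x
  linarith

theorem step {M : Type} [TopologicalSpace M] [TopologicalSpace.MetrizableSpace M] (T : Tree)
    (c : Cell T M) (A : Set M) (hA : IsClosed A) (F : M → Q) (hF : Good F) (η : M → ℝ)
    (hη : Continuous η) (hpos : ∀ x, 0 < η x) (hη1 : ∀ x, η x ≤ (1 - F x 0) / 2) :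
    ∃ F' : M → Q, Continuous F' ∧ Function.Injective F' ∧ (∀ x ∈ A, F' x = F x) ∧
      (∀ x, dist (F' x) (F x) < η x) ∧ Boxy (F' '' (c.C \ A)) := by
  classical
  let _ : MetricSpace M := TopologicalSpace.metrizableSpaceMetric M
  obtain ⟨hFc, hFi, hF1, hFp⟩ := id hF
  have hCc : IsCompact c.C := c.C_compact
  have hCcl : IsClosed c.C := hCc.isClosed
  have hCn : c.C.Nonempty := c.C_nonempty
  have hCU : c.C ⊆ c.U := c.C_subset
  have hWo : IsOpen (c.U \ A) := c.hU.sdiff hA
  obtain ⟨u, hu0, hu1, -⟩ := exists_continuous_zero_one_of_isClosed hCcl c.hU.isClosed_compl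
    (disjoint_left.2 fun x hx hx' => hx' (hCU hx))
  have hone : ((fun _ => 1 : Q)) ∈ {z : Q | z 0 = 1} := rfl
  -- the closed sets
  set Z0 : Set Q := F '' (c.U \ A)ᶜ ∪ {z : Q | z 0 = 1} with hZ0
  set Z1 : Set Q := F '' c.C with hZ1
  set Z2 : Set Q := F '' {x | 1 / 3 ≤ u x} ∪ {z : Q | z 0 = 1} with hZ2
  have hZ0c : IsClosed Z0 := closed_image F hFc hFp _ hWo.isClosed_compl
  have hZ1c : IsClosed Z1 := (hCc.image hFc).isClosed
  have hZ2c : IsClosed Z2 := closed_image F hFc hFp _ (isClosed_le continuous_const u.continuous)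
  have hZ0n : Z0.Nonempty := ⟨_, Or.inr hone⟩
  have hZ1n : Z1.Nonempty := hCn.image F
  have hZ2n : Z2.Nonempty := ⟨_, Or.inr hone⟩
  have hnot1 : ∀ x, F x ∉ {z : Q | z 0 = 1} := by
    intro x hx
    have h1 := hF1 x
    rw [show F x 0 = 1 from hx] at h1
    have h3 : ((1 : I) : ℝ) = 1 := rfl
    rw [h3] at h1
    exact lt_irrefl _ h1
  -- ε
  set ε : M → ℝ := fun x => 1 / 2 * min (η x) (min (Metric.infDist (F x) Z0)
    (max (Metric.infDist (F x) Z1) (Metric.infDist (F x) Z2))) with hε
  have hεc : Continuous ε := by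
    have k0 : Continuous fun x => Metric.infDist (F x) Z0 :=
      (Metric.continuous_infDist_pt Z0).comp hFc
    have k1 : Continuous fun x => Metric.infDist (F x) Z1 :=
      (Metric.continuous_infDist_pt Z1).comp hFc
    have k2 : Continuous fun x => Metric.infDist (F x) Z2 :=
      (Metric.continuous_infDist_pt Z2).comp hFc
    exact continuous_const.mul (hη.min (k0.min (k1.max k2)))
  have hεη : ∀ x, ε x ≤ η x / 2 := by
    intro x
    have h1 : min (η x) (min (Metric.infDist (F x) Z0)
      (max (Metric.infDist (F x) Z1) (Metric.infDist (F x) Z2))) ≤ η x := min_le_left _ _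
    show 1 / 2 * _ ≤ _
    linarith
  have hε0 : ∀ x, ∀ z ∈ Z0, 2 * ε x ≤ dist (F x) z := by
    intro x z hz
    have h1 : min (η x) (min (Metric.infDist (F x) Z0)
      (max (Metric.infDist (F x) Z1) (Metric.infDist (F x) Z2))) ≤ Metric.infDist (F x) Z0 :=
      (min_le_right _ _).trans (min_le_left _ _)
    have h2 := Metric.infDist_le_dist_of_mem (x := F x) hz
    show 2 * (1 / 2 * _) ≤ _
    linarith
  have hε1 : ∀ x ∈ c.C, ∀ z ∈ Z2, 2 * ε x ≤ dist (F x) z := by
    intro x hx z hz
    have h1 : min (η x) (min (Metric.infDist (F x) Z0)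
      (max (Metric.infDist (F x) Z1) (Metric.infDist (F x) Z2))) ≤
        max (Metric.infDist (F x) Z1) (Metric.infDist (F x) Z2) :=
      (min_le_right _ _).trans (min_le_right _ _)
    have h2 := Metric.infDist_le_dist_of_mem (x := F x) hz
    have h3 : Metric.infDist (F x) Z1 = 0 := Metric.infDist_zero_of_mem (mem_image_of_mem F hx)
    rw [h3, max_eq_right Metric.infDist_nonneg] at h1
    show 2 * (1 / 2 * _) ≤ _
    rw [h3, max_eq_right Metric.infDist_nonneg]
    linarith
  have hε2 : ∀ x, 1 / 3 ≤ u x → ∀ z ∈ Z1, 2 * ε x ≤ dist (F x) z := by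
    intro x hx z hz
    have h1 : min (η x) (min (Metric.infDist (F x) Z0)
      (max (Metric.infDist (F x) Z1) (Metric.infDist (F x) Z2))) ≤
        max (Metric.infDist (F x) Z1) (Metric.infDist (F x) Z2) :=
      (min_le_right _ _).trans (min_le_right _ _)
    have h2 := Metric.infDist_le_dist_of_mem (x := F x) hz
    have h3 : Metric.infDist (F x) Z2 = 0 :=
      Metric.infDist_zero_of_mem (Or.inl (mem_image_of_mem F hx))
    rw [h3, max_eq_left Metric.infDist_nonneg] at h1
    show 2 * (1 / 2 * _) ≤ _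
    rw [h3, max_eq_left Metric.infDist_nonneg]
    linarith
  have hεpos : ∀ x ∈ c.U \ A, 0 < ε x := by
    intro x hx
    have h0 : 0 < Metric.infDist (F x) Z0 := by
      refine (hZ0c.notMem_iff_infDist_pos hZ0n).1 ?_
      rintro (⟨y, hy, hxy⟩ | h)
      · exact hy (by rw [hFi hxy]; exact hx)
      · exact hnot1 x h
    have h1 : 0 < max (Metric.infDist (F x) Z1) (Metric.infDist (F x) Z2) := by
      by_cases h : F x ∈ Z1
      · refine lt_of_lt_of_le ?_ (le_max_right _ _)
        refine (hZ2c.notMem_iff_infDist_pos hZ2n).1 ?_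
        obtain ⟨y, hy, hxy⟩ := h
        have hxC : x ∈ c.C := by rw [← hFi hxy]; exact hy
        rintro (⟨y', hy', hxy'⟩ | h')
        · have h2 : u x = 0 := hu0 hxC
          have h3 : (1 : ℝ) / 3 ≤ u x := by rw [← hFi hxy']; exact hy'
          rw [h2] at h3
          norm_num at h3
        · exact hnot1 x h'
      · exact lt_of_lt_of_le ((hZ1c.notMem_iff_infDist_pos hZ1n).1 h) (le_max_left _ _)
    have h2 := lt_min (hpos x) (lt_min h0 h1)
    show 0 < 1 / 2 * _
    linarith
  obtain ⟨f, hfc, hfi, hfd, hfB⟩ := chart_cbe T c A hA F hF ε hεc hεpos (fun x _ z hz => hε0 x z hz)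
  -- the map m
  set m : M → Q := fun x => if h : x ∈ c.U \ A then cvx (Step_l (u x)) (f ⟨x, h⟩) (F x) else F x
    with hm
  have hm0 : ∀ x, x ∉ c.U \ A → m x = F x := fun x hx => by
    show (if h : x ∈ c.U \ A then _ else _) = _
    rw [dif_neg hx]
  have hm1 : ∀ x (hx : x ∈ c.U \ A), m x = cvx (Step_l (u x)) (f ⟨x, hx⟩) (F x) := fun x hx => by
    show (if h : x ∈ c.U \ A then _ else _) = _
    rw [dif_pos hx]
  have hm2 : ∀ x (hx : x ∈ c.U \ A), u x ≤ 1 / 3 → m x = f ⟨x, hx⟩ := fun x hx h => by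
    rw [hm1 x hx, Step_l_zero h, cvx_zero]
  have hmd : ∀ x, x ∈ c.U \ A → dist (m x) (F x) < ε x := fun x hx => by
    rw [hm1 x hx]
    exact (dist_cvx _ _ _).trans_lt (hfd ⟨x, hx⟩)
  have hmη : ∀ x, dist (m x) (F x) < η x / 2 := fun x => by
    by_cases hx : x ∈ c.U \ A
    · exact (hmd x hx).trans_le (hεη x)
    · rw [hm0 x hx, dist_self]
      exact half_pos (hpos x)
  have hmc : Continuous m := by
    rw [continuous_iff_continuousAt]
    intro a
    by_cases ha : a ∈ c.U \ A
    · have h1 : ContinuousAt (m ∘ ((↑) : (c.U \ A : Set M) → M)) ⟨a, ha⟩ := by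
        have h2 : (m ∘ ((↑) : (c.U \ A : Set M) → M)) =
            fun x : (c.U \ A : Set M) => cvx (Step_l (u x)) (f x) (F x) := by
          funext x
          exact hm1 x x.2
        rw [h2]
        apply Continuous.continuousAt
        have h3 : Continuous fun x : (c.U \ A : Set M) =>
            ((Step_l (u x), f x, F x) : I × Q × Q) :=
          (Step_l_cont.comp (u.continuous.comp continuous_subtype_val)).prodMk
            (hfc.prodMk (hFc.comp continuous_subtype_val))
        exact cvx_continuous.comp h3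
      exact (hWo.isOpenEmbedding_subtypeVal.continuousAt_iff (x := ⟨a, ha⟩)).1 h1
    · refine Step_cont_of_dist m F a hFc.continuousAt (hm0 a ha) fun x => ?_
      by_cases hx : x ∈ c.U \ A
      · have h1 := hmd x hx
        have h2 := hε0 x (F a) (Or.inl (mem_image_of_mem F ha))
        have h3 := dist_nonneg (x := F x) (y := F a)
        linarith
      · rw [hm0 x hx, dist_self]
        exact dist_nonneg
  have hmclose : ∀ x, |(m x 0 : ℝ) - F x 0| ≤ (1 - F x 0) / 4 := fun x => by
    have h1 := abs_zero_le (m x) (F x)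
    have h2 := hmη x
    have h3 := hη1 x
    linarith
  have hmp : ∀ r : ℝ, r < 1 → IsCompact {x | (m x 0 : ℝ) ≤ r} :=
    compact_of_close hFp hmc fun x => (hmclose x).trans (by
      have := hF1 x
      linarith)
  have hm1' : ∀ x, m x ∉ {z : Q | z 0 = 1} := by
    intro x hx
    have h1 := hF1 x
    have h2 := (abs_le.1 (hmclose x)).2
    rw [show m x 0 = 1 from hx] at h2
    have h3 : ((1 : I) : ℝ) = 1 := rfl
    rw [h3] at h2
    linarith
  have hACc : IsClosed (A ∪ c.C) := hA.union hCcl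
  set Y : Set Q := m '' (A ∪ c.C) ∪ {z : Q | z 0 = 1} with hY
  have hYc : IsClosed Y := closed_image m hmc hmp _ hACc
  have hYn : Y.Nonempty := ⟨_, Or.inr hone⟩
  have hmA : ∀ a ∈ A, m a = F a := fun a ha => hm0 a fun h => h.2 ha
  have hmAne : ∀ x ∈ c.U \ A, ∀ a ∈ A, m x ≠ F a := by
    intro x hx a ha h
    have h1 := hmd x hx
    have h2 := hε0 x (F a) (Or.inl (mem_image_of_mem F fun h => h.2 ha))
    rw [h, dist_comm] at h1
    have h3 := dist_nonneg (x := F x) (y := F a)
    linarith
  have hmY : ∀ x, x ∉ A ∪ c.C → m x ∉ Y := by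
    rintro x hx (⟨x', hx', hxx'⟩ | h)
    · by_cases hx'A : x' ∈ A
      · rw [hmA x' hx'A] at hxx'
        by_cases hxU : x ∈ c.U
        · exact hmAne x ⟨hxU, fun h => hx (Or.inl h)⟩ x' hx'A hxx'.symm
        · rw [hm0 x fun h => hxU h.1] at hxx'
          exact hx (Or.inl (by rw [← hFi hxx']; exact hx'A))
      · have hx'C : x' ∈ c.C := hx'.resolve_left hx'A
        have hx'W : x' ∈ c.U \ A := ⟨hCU hx'C, hx'A⟩
        have hux' : u x' = 0 := hu0 hx'C
        have hmx' : m x' = f ⟨x', hx'W⟩ := hm2 x' hx'W (by rw [hux']; norm_num)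
        by_cases hux : u x < 1 / 3
        · have hxU : x ∈ c.U := by
            by_contra h
            have h1 : u x = 1 := hu1 h
            rw [h1] at hux
            norm_num at hux
          have hxW : x ∈ c.U \ A := ⟨hxU, fun h => hx (Or.inl h)⟩
          rw [hmx', hm2 x hxW hux.le] at hxx'
          have h1 := hfi hxx'
          have h2 : x' = x := congrArg Subtype.val h1
          exact hx (Or.inr (h2 ▸ hx'C))
        · have hux' : 1 / 3 ≤ u x := not_lt.1 hux
          have h1 : 2 * ε x' ≤ dist (F x') (F x) :=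
            hε1 x' hx'C _ (Or.inl (mem_image_of_mem F hux'))
          have h2 := hmd x' hx'W
          have h3 : dist (m x) (F x) ≤ dist (F x) (F x') / 2 := by
            by_cases hxW : x ∈ c.U \ A
            · have h4 := hmd x hxW
              have h5 : 2 * ε x ≤ dist (F x) (F x') := hε2 x hux' _ (mem_image_of_mem F hx'C)
              linarith
            · rw [hm0 x hxW, dist_self]
              exact div_nonneg dist_nonneg zero_le_two
          have h4 := dist_triangle (F x') (m x') (F x)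
          rw [dist_comm (F x') (m x')] at h4
          have h5 : dist (m x') (F x) = dist (m x) (F x) := by rw [hxx']
          rw [dist_comm (F x) (F x')] at h3
          linarith
    · exact hm1' x h
  -- the approximation
  set N : Set M := (A ∪ c.C)ᶜ with hN
  have hNo : IsOpen N := hACc.isOpen_compl
  set δ : M → ℝ := fun x => 1 / 2 * min (η x) (Metric.infDist (m x) Y) with hδ
  have hδc : Continuous δ :=
    continuous_const.mul (hη.min ((Metric.continuous_infDist_pt Y).comp hmc))
  have hδpos : ∀ x ∈ N, 0 < δ x := by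
    intro x hx
    have h1 := lt_min (hpos x) ((hYc.notMem_iff_infDist_pos hYn).1 (hmY x hx))
    show 0 < 1 / 2 * _
    linarith
  have hδη : ∀ x, δ x ≤ η x / 2 := by
    intro x
    have h1 : min (η x) (Metric.infDist (m x) Y) ≤ η x := min_le_left _ _
    show 1 / 2 * _ ≤ _
    linarith
  have hδY : ∀ x, ∀ z ∈ Y, 2 * δ x ≤ dist (m x) z := by
    intro x z hz
    have h1 : min (η x) (Metric.infDist (m x) Y) ≤ Metric.infDist (m x) Y := min_le_right _ _
    have h2 := Metric.infDist_le_dist_of_mem (x := m x) hz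
    show 2 * (1 / 2 * _) ≤ _
    linarith
  obtain ⟨m', hm'c, hm'i, hm'd⟩ := inj_approx (N := N) (fun x => F x)
    (hFc.comp continuous_subtype_val) (fun x y h => Subtype.ext (hFi h)) (fun x => m x)
    (hmc.comp continuous_subtype_val) (fun x => δ x) (hδc.comp continuous_subtype_val)
    (fun x => hδpos x x.2)
  set F' : M → Q := fun x => if h : x ∈ N then m' ⟨x, h⟩ else m x with hF'
  have hF'0 : ∀ x, x ∉ N → F' x = m x := fun x hx => by
    show (if h : x ∈ N then _ else _) = _
    rw [dif_neg hx]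
  have hF'1 : ∀ x (hx : x ∈ N), F' x = m' ⟨x, hx⟩ := fun x hx => by
    show (if h : x ∈ N then _ else _) = _
    rw [dif_pos hx]
  have hF'd : ∀ x ∈ N, dist (F' x) (m x) < δ x := fun x hx => by
    rw [hF'1 x hx]
    exact hm'd ⟨x, hx⟩
  have hnN : ∀ x, x ∉ N ↔ x ∈ A ∪ c.C := fun x => not_not
  have hne : ∀ x ∈ N, ∀ y, y ∉ N → F' x ≠ F' y := by
    intro x hx y hy h
    have h1 := hF'd x hx
    have h2 := hδY x (m y) (Or.inl (mem_image_of_mem m ((hnN y).1 hy)))
    rw [h, hF'0 y hy, dist_comm] at h1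
    have h3 := dist_nonneg (x := m x) (y := m y)
    linarith
  refine ⟨F', ?_, ?_, ?_, ?_, ?_⟩
  · rw [continuous_iff_continuousAt]
    intro a
    by_cases ha : a ∈ N
    · have h1 : ContinuousAt (F' ∘ ((↑) : N → M)) ⟨a, ha⟩ := by
        have h2 : (F' ∘ ((↑) : N → M)) = m' := by
          funext x
          exact hF'1 x x.2
        rw [h2]
        exact hm'c.continuousAt
      exact (hNo.isOpenEmbedding_subtypeVal.continuousAt_iff (x := ⟨a, ha⟩)).1 h1
    · refine Step_cont_of_dist F' m a hmc.continuousAt (hF'0 a ha) fun x => ?_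
      by_cases hx : x ∈ N
      · have h1 := hF'd x hx
        have h2 := hδY x (m a) (Or.inl (mem_image_of_mem m ((hnN a).1 ha)))
        have h3 := dist_nonneg (x := m x) (y := m a)
        linarith
      · rw [hF'0 x hx, dist_self]
        exact dist_nonneg
  · intro x y hxy
    by_cases hx : x ∈ N
    · by_cases hy : y ∈ N
      · rw [hF'1 x hx, hF'1 y hy] at hxy
        exact congrArg Subtype.val (hm'i hxy)
      · exact absurd hxy (hne x hx y hy)
    · by_cases hy : y ∈ N
      · exact absurd hxy.symm (hne y hy x hx)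
      · rw [hF'0 x hx, hF'0 y hy] at hxy
        by_cases hxA : x ∈ A
        · rw [hmA x hxA] at hxy
          by_cases hyA : y ∈ A
          · rw [hmA y hyA] at hxy
            exact hFi hxy
          · exact absurd hxy.symm (hmAne y ⟨hCU (((hnN y).1 hy).resolve_left hyA), hyA⟩ x hxA)
        · have hxC : x ∈ c.C := ((hnN x).1 hx).resolve_left hxA
          have hxW : x ∈ c.U \ A := ⟨hCU hxC, hxA⟩
          by_cases hyA : y ∈ A
          · rw [hmA y hyA] at hxy
            exact absurd hxy (hmAne x hxW y hyA)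
          · have hyC : y ∈ c.C := ((hnN y).1 hy).resolve_left hyA
            have hyW : y ∈ c.U \ A := ⟨hCU hyC, hyA⟩
            have h1 : u x = 0 := hu0 hxC
            have h2 : u y = 0 := hu0 hyC
            rw [hm2 x hxW (by rw [h1]; norm_num), hm2 y hyW (by rw [h2]; norm_num)] at hxy
            exact congrArg Subtype.val (hfi hxy)
  · intro x hx
    rw [hF'0 x fun h => h (Or.inl hx), hmA x hx]
  · intro x
    by_cases hx : x ∈ N
    · have h1 := hF'd x hx
      have h2 := hδη x
      have h3 := hmη x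
      have h4 := dist_triangle (F' x) (m x) (F x)
      linarith
    · rw [hF'0 x hx]
      have h3 := hmη x
      have h4 := hpos x
      linarith
  · have h1 : F' '' (c.C \ A) = f '' {x : (c.U \ A : Set M) | (x : M) ∈ c.C} := by
      ext z
      constructor
      · rintro ⟨x, ⟨hxC, hxA⟩, rfl⟩
        have hxW : x ∈ c.U \ A := ⟨hCU hxC, hxA⟩
        refine ⟨⟨x, hxW⟩, hxC, ?_⟩
        have h2 : u x = 0 := hu0 hxC
        rw [hF'0 x fun h => h (Or.inr hxC), hm2 x hxW (by rw [h2]; norm_num)]
      · rintro ⟨⟨x, hxW⟩, hxC, rfl⟩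
        have h2 : u x = 0 := hu0 hxC
        refine ⟨x, ⟨hxC, hxW.2⟩, ?_⟩
        rw [hF'0 x fun h => h (Or.inr hxC), hm2 x hxW (by rw [h2]; norm_num)]
    rw [h1]
    exact hfB

end Pool.Agent.H56.SR
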