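import Mathlib
import Pool.Agent.H56.SR.Basic

set_option autoImplicit false

/-!
# SR-01: existence of the tree

Define by recursion on the word.  `j w = (Nat.unpair w.length).1` (every value infinitely often along every
branch), `m w = 2 * Nat.pair w.length (Encodable.encode w) + 3` (injective in `w`, `≥ 2 * w.length + 3`),
`c w = (2 * ⌊μ * 2 ^ m⌋ + 1) / 2 ^ (m + 1)` with `μ` the midpoint of the `j w`-side `[a, b]` of the node `w`.
Then `|c w - μ| ≤ 2 ^ (-(m + 1))`; invariant: every side has length `≥ (1/3) ^ w.length`, so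
`2 ^ (-(m + 1)) ≤ 4 ^ (-length) / 16 < (b - a) / 6` and `c w` lies in the middle third of `[a, b]`; both
children have sides `≥ (b - a) / 3` and `≤ 2 (b - a) / 3` in the coordinate `j w`.
Injectivity: an odd number divided by `2 ^ (m + 1)` determines `m` (so `w`).
Mesh: the `n`-side of `w` has length `≤ (2/3) ^ (number of d < w.length with (unpair d).1 = n)`, and this
number tends to infinity (`d = Nat.pair n k`).
-/

namespace Pool.Agent.H56.SR

open unitInterval Set Topology Pool.Agent.H56.SQ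

namespace TreeEx

/-- the cut value near `μ`: an odd number divided by `2 ^ (m + 1)` -/
noncomputable def cut (μ : ℝ) (m : ℕ) : ℝ := (2 * (⌊μ * 2 ^ m⌋ : ℝ) + 1) / 2 ^ (m + 1)

theorem cut_near (μ : ℝ) (m : ℕ) : |cut μ m - μ| ≤ 1 / 2 ^ (m + 1) := by
  have h1 : (⌊μ * 2 ^ m⌋ : ℝ) ≤ μ * 2 ^ m := Int.floor_le _
  have h2 : μ * 2 ^ m < (⌊μ * 2 ^ m⌋ : ℝ) + 1 := Int.lt_floor_add_one _
  have hp : (0 : ℝ) < 2 ^ (m + 1) := by positivity
  have h3 : cut μ m - μ = (2 * (⌊μ * 2 ^ m⌋ : ℝ) + 1 - 2 * (μ * 2 ^ m)) / 2 ^ (m + 1) := by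
    unfold cut
    rw [eq_div_iff hp.ne', sub_mul, div_mul_cancel₀ _ hp.ne', pow_succ]
    ring
  rw [h3, abs_div, abs_of_pos hp]
  refine div_le_div_of_nonneg_right ?_ hp.le
  rw [abs_le]
  constructor <;> linarith

theorem cut_inj {μ ν : ℝ} {m n : ℕ} (h : cut μ m = cut ν n) : m = n := by
  have key : ∀ (k l : ℤ) (m n : ℕ), m < n →
      (2 * (k : ℝ) + 1) / 2 ^ (m + 1) = (2 * (l : ℝ) + 1) / 2 ^ (n + 1) → False := by
    intro k l m n hmn he
    obtain ⟨d, rfl⟩ := Nat.exists_eq_add_of_lt hmn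
    have hp : (0 : ℝ) < 2 ^ (m + 1) := by positivity
    have hq : (0 : ℝ) < 2 ^ (m + d + 1 + 1) := by positivity
    rw [div_eq_div_iff hp.ne' hq.ne'] at he
    have e2 : (2 : ℝ) ^ (m + d + 1 + 1) = 2 ^ (m + 1) * (2 * 2 ^ d) := by
      rw [show m + d + 1 + 1 = (m + 1) + (d + 1) by ring, pow_add, pow_succ 2 d]
      ring
    rw [e2] at he
    have e3 : (2 * (k : ℝ) + 1) * (2 * 2 ^ d) = 2 * (l : ℝ) + 1 := by
      have : (2 : ℝ) ^ (m + 1) * ((2 * (k : ℝ) + 1) * (2 * 2 ^ d)) = 2 ^ (m + 1) * (2 * (l : ℝ) + 1) := by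
        linarith
      exact mul_left_cancel₀ hp.ne' this
    have e4 : (2 * k + 1) * (2 * 2 ^ d) = 2 * l + 1 := by exact_mod_cast e3
    have : (2 : ℤ) ∣ 1 := by
      have h5 : (1 : ℤ) = 2 * ((2 * k + 1) * 2 ^ d - l) := by linarith
      exact ⟨_, h5⟩
    omega
  rcases lt_trichotomy m n with hlt | heq | hgt
  · exact (key _ _ m n hlt h).elim
  · exact heq
  · exact (key _ _ n m hgt h.symm).elim

/-- the coordinate of the node `w` -/
def jj (w : List Bool) : ℕ := (Nat.unpair w.length).1

/-- the level of the cut value of the node `w` -/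
def mm (w : List Bool) : ℕ := 2 * Nat.pair w.length (Encodable.encode w) + 3

theorem mm_inj {v w : List Bool} (h : mm v = mm w) : v = w := by
  have h1 : Nat.pair v.length (Encodable.encode v) = Nat.pair w.length (Encodable.encode w) := by
    unfold mm at h; omega
  exact Encodable.encode_injective (Nat.pair_eq_pair.1 h1).2

theorem le_mm (w : List Bool) : 2 * w.length + 3 ≤ mm w := by
  have := Nat.left_le_pair w.length (Encodable.encode w)
  unfold mm; omega

/-- the real sides of the node -/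
noncomputable def nd : List Bool → (ℕ → ℝ) × (ℕ → ℝ)
  | [] => (fun _ => 0, fun _ => 1)
  | b :: w =>
      if b then
        (Function.update (nd w).1 (jj w) (cut (((nd w).1 (jj w) + (nd w).2 (jj w)) / 2) (mm w)), (nd w).2)
      else
        ((nd w).1, Function.update (nd w).2 (jj w) (cut (((nd w).1 (jj w) + (nd w).2 (jj w)) / 2) (mm w)))

/-- the real cut value -/
noncomputable def cc (w : List Bool) : ℝ := cut (((nd w).1 (jj w) + (nd w).2 (jj w)) / 2) (mm w)

theorem nd_true (w : List Bool) : nd (true :: w) = (Function.update (nd w).1 (jj w) (cc w), (nd w).2) := by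
  simp [nd, cc]

theorem nd_false (w : List Bool) : nd (false :: w) = ((nd w).1, Function.update (nd w).2 (jj w) (cc w)) := by
  simp [nd, cc]

/-- the cut value lies in the middle third, if the side is long enough -/
theorem cc_mid (w : List Bool) (h : (1 / 3 : ℝ) ^ w.length ≤ (nd w).2 (jj w) - (nd w).1 (jj w)) :
    ((nd w).2 (jj w) - (nd w).1 (jj w)) / 3 ≤ cc w - (nd w).1 (jj w) ∧
      ((nd w).2 (jj w) - (nd w).1 (jj w)) / 3 ≤ (nd w).2 (jj w) - cc w := by
  have h1 := cut_near (((nd w).1 (jj w) + (nd w).2 (jj w)) / 2) (mm w)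
  have h2 : (1 : ℝ) / 2 ^ (mm w + 1) ≤ (1 / 3 : ℝ) ^ w.length / 16 := by
    have h3 : (1 : ℝ) / 2 ^ (mm w + 1) = (1 / 2 : ℝ) ^ (mm w + 1) := by
      rw [one_div_pow]
    rw [h3]
    have h4 : (1 / 2 : ℝ) ^ (mm w + 1) ≤ (1 / 2 : ℝ) ^ (2 * w.length + 4) :=
      pow_le_pow_of_le_one (by norm_num) (by norm_num) (by have := le_mm w; omega)
    have h5 : (1 / 2 : ℝ) ^ (2 * w.length + 4) = (1 / 4 : ℝ) ^ w.length / 16 := by
      rw [pow_add, pow_mul]; norm_num; ring
    have h6 : (1 / 4 : ℝ) ^ w.length ≤ (1 / 3 : ℝ) ^ w.length :=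
      pow_le_pow_left₀ (by norm_num) (by norm_num) _
    linarith
  have h7 : (0 : ℝ) < (1 / 3 : ℝ) ^ w.length := by positivity
  have h8 : |cc w - ((nd w).1 (jj w) + (nd w).2 (jj w)) / 2|
      ≤ ((nd w).2 (jj w) - (nd w).1 (jj w)) / 6 := by
    refine (h1.trans h2).trans ?_
    linarith
  rw [abs_le] at h8
  constructor <;> linarith [h8.1, h8.2]

/-- the number of cuts in the coordinate `n` on the first `L` levels -/
def cnt (n L : ℕ) : ℕ := ((Finset.range L).filter fun d => (Nat.unpair d).1 = n).card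

theorem cnt_succ (n L : ℕ) : cnt n (L + 1) = cnt n L + if (Nat.unpair L).1 = n then 1 else 0 := by
  unfold cnt
  rw [Finset.range_add_one, Finset.filter_insert]
  split_ifs with h
  · rw [Finset.card_insert_of_notMem]
    simp
  · simp

theorem cnt_mono (n : ℕ) {L L' : ℕ} (h : L ≤ L') : cnt n L ≤ cnt n L' := by
  unfold cnt
  refine Finset.card_le_card ?_
  intro d hd
  rw [Finset.mem_filter, Finset.mem_range] at hd ⊢
  exact ⟨lt_of_lt_of_le hd.1 h, hd.2⟩

theorem cnt_large (n K : ℕ) : ∃ L, K ≤ cnt n L := by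
  refine ⟨Nat.pair n K, ?_⟩
  unfold cnt
  calc K = ((Finset.range K).image fun k => Nat.pair n k).card := by
        rw [Finset.card_image_of_injective, Finset.card_range]
        intro a b hab
        exact (Nat.pair_eq_pair.1 hab).2
    _ ≤ _ := by
        refine Finset.card_le_card ?_
        intro d hd
        rw [Finset.mem_image] at hd
        obtain ⟨k, hk, rfl⟩ := hd
        rw [Finset.mem_range] at hk
        rw [Finset.mem_filter, Finset.mem_range]
        exact ⟨Nat.pair_lt_pair_right n hk, by rw [Nat.unpair_pair]⟩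

theorem inv (w : List Bool) : ∀ n, 0 ≤ (nd w).1 n ∧ (nd w).2 n ≤ 1 ∧
    (1 / 3 : ℝ) ^ w.length ≤ (nd w).2 n - (nd w).1 n ∧
    (nd w).2 n - (nd w).1 n ≤ (2 / 3 : ℝ) ^ cnt n w.length := by
  induction w with
  | nil => intro n; simp [nd, cnt]
  | cons b w ih =>
    intro n
    obtain ⟨i1, i2, i3, i4⟩ := ih n
    have hmid := cc_mid w (ih (jj w)).2.2.1
    have hj := ih (jj w)
    have hp : (0 : ℝ) < (1 / 3 : ℝ) ^ w.length := by positivity
    have hq : (0 : ℝ) < (2 / 3 : ℝ) ^ cnt n w.length := by positivity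
    have hlen : (b :: w).length = w.length + 1 := rfl
    rw [hlen, cnt_succ]
    by_cases hn : n = jj w
    · subst hn
      have e : (Nat.unpair w.length).1 = jj w := rfl
      rw [if_pos e, pow_succ, pow_succ]
      cases b
      · rw [nd_false]
        simp only [Function.update_self]
        refine ⟨i1, ?_, ?_, ?_⟩ <;> nlinarith [hmid.1, hmid.2]
      · rw [nd_true]
        simp only [Function.update_self]
        refine ⟨?_, i2, ?_, ?_⟩ <;> nlinarith [hmid.1, hmid.2]
    · have e : ¬ (Nat.unpair w.length).1 = n := fun h => hn h.symm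
      rw [if_neg e, pow_succ, add_zero]
      cases b
      · rw [nd_false]
        simp only [Function.update_of_ne hn]
        refine ⟨i1, i2, ?_, i4⟩
        nlinarith
      · rw [nd_true]
        simp only [Function.update_of_ne hn]
        refine ⟨i1, i2, ?_, i4⟩
        nlinarith

theorem lt_side (w : List Bool) (n : ℕ) : (nd w).1 n < (nd w).2 n := by
  have h := (inv w n).2.2.1
  have hp : (0 : ℝ) < (1 / 3 : ℝ) ^ w.length := by positivity
  linarith

theorem lo_mem (w : List Bool) (n : ℕ) : (nd w).1 n ∈ I :=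
  ⟨(inv w n).1, (lt_side w n).le.trans (inv w n).2.1⟩

theorem hi_mem (w : List Bool) (n : ℕ) : (nd w).2 n ∈ I :=
  ⟨(inv w n).1.trans (lt_side w n).le, (inv w n).2.1⟩

theorem lo_lt_cc (w : List Bool) : (nd w).1 (jj w) < cc w := by
  have h := (cc_mid w (inv w (jj w)).2.2.1).1
  have := lt_side w (jj w)
  linarith

theorem cc_lt_hi (w : List Bool) : cc w < (nd w).2 (jj w) := by
  have h := (cc_mid w (inv w (jj w)).2.2.1).2
  have := lt_side w (jj w)
  linarith

theorem cc_mem (w : List Bool) : cc w ∈ I :=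
  ⟨(lo_mem w _).1.trans (lo_lt_cc w).le, (cc_lt_hi w).le.trans (hi_mem w _).2⟩

end TreeEx

open TreeEx in
theorem exists_tree : Nonempty Tree := by
  refine ⟨{ lo := fun w n => ⟨(nd w).1 n, lo_mem w n⟩
            hi := fun w n => ⟨(nd w).2 n, hi_mem w n⟩
            j := jj
            c := fun w => ⟨cc w, cc_mem w⟩
            lo_nil := ?_, hi_nil := ?_, lo_lt := ?_, lt_hi := ?_, lo_false := ?_, hi_false := ?_,
            lo_true := ?_, hi_true := ?_, inj := ?_, mesh := ?_ }⟩
  · intro n; rfl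
  · intro n; rfl
  · intro w; exact lo_lt_cc w
  · intro w; exact cc_lt_hi w
  · intro w; funext n; apply Subtype.ext
    change (nd (false :: w)).1 n = (nd w).1 n
    rw [nd_false]
  · intro w; funext n; apply Subtype.ext
    change (nd (false :: w)).2 n = _
    rw [nd_false]
    by_cases hn : n = jj w
    · subst hn; simp
    · simp [Function.update_of_ne hn]
  · intro w; funext n; apply Subtype.ext
    change (nd (true :: w)).1 n = _
    rw [nd_true]
    by_cases hn : n = jj w
    · subst hn; simp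
    · simp [Function.update_of_ne hn]
  · intro w; funext n; apply Subtype.ext
    change (nd (true :: w)).2 n = (nd w).2 n
    rw [nd_true]
  · intro v w h
    have h1 : cc v = cc w := congrArg Subtype.val h
    exact mm_inj (cut_inj h1)
  · intro n δ hδ
    obtain ⟨K, hK⟩ := exists_pow_lt_of_lt_one hδ (show (2 / 3 : ℝ) < 1 by norm_num)
    obtain ⟨L, hL⟩ := cnt_large n K
    refine ⟨L, fun w hw => ?_⟩
    refine lt_of_le_of_lt (inv w n).2.2.2 (lt_of_le_of_lt ?_ hK)
    exact pow_le_pow_of_le_one (by norm_num) (by norm_num) (hL.trans (cnt_mono n hw))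

end Pool.Agent.H56.SR
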