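import Mathlib
import Pool.Agent.H56.SR.Basic
import Pool.Agent.H56.SR.TreeEx
import Pool.Agent.H56.SR.Cells
import Pool.Agent.H56.SR.GoodA
import Pool.Agent.H56.SR.GoodEx
import Pool.Agent.H56.SR.Step

set_option autoImplicit false

/-!
# SR-17: the limit

`A n = ⋃ i < n, (c i).C` closed.  `F 0` good (`exists_good`), `F (n+1)` from `step` with `c n`, `A n`,
`η n x = (1/2)^(n+3) * (1 - F 0 x 0)`.  Invariants: `|F n x 0 - F 0 x 0| ≤ (1 - (1/2)^n) * (1 - F 0 x 0) / 4`
(`abs_zero_le`), so `F n` is good (`of_close`) and `η n x ≤ (1 - F n x 0) / 2`.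
`F (n+1) = F n` on `A n`; `G x = F (N x) x`, where `x ∈ A (N x)`; `G = F n` on `A n`.  `G` is continuous (near `x` it is
`F n`), injective, good, so an embedding.  `G '' ((c n).C \ A n) = F (n+1) '' ((c n).C \ A n)` is boxy with family
`𝒟 n`; members of `𝒟 n`, `𝒟 m`, `n ≠ m`, are disjoint; `𝒞 = ⋃ n, 𝒟 n`.
-/

namespace Pool.Agent.H56.SR

open unitInterval Set Topology Pool.Agent.H56.SQ
open scoped PiCountable

/-- dependent recursion with choice -/
theorem Final_seq {α : Type} (P : ℕ → α → Prop) (R : ℕ → α → α → Prop) (a0 : α) (h0 : P 0 a0)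
    (h : ∀ n a, P n a → ∃ b, P (n + 1) b ∧ R n a b) :
    ∃ F : ℕ → α, F 0 = a0 ∧ (∀ n, P n (F n)) ∧ ∀ n, R n (F n) (F (n + 1)) := by
  choose f hf1 hf2 using h
  let S : (n : ℕ) → {a : α // P n a} := fun n =>
    Nat.rec (motive := fun n => {a : α // P n a}) ⟨a0, h0⟩
      (fun n a => ⟨f n a.1 a.2, hf1 n a.1 a.2⟩) n
  refine ⟨fun n => (S n).1, rfl, fun n => (S n).2, fun n => hf2 n (S n).1 (S n).2⟩

theorem Final_exists_seq {M : Type} [TopologicalSpace M] [TopologicalSpace.SeparableSpace M]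
    [TopologicalSpace.MetrizableSpace M] [LocallyCompactSpace M] (T : Tree) (c : ℕ → Cell T M)
    (A : ℕ → Set M) (hA : ∀ n, IsClosed (A n)) :
    ∃ F : ℕ → M → Q, (∀ n, Good (F n)) ∧
      (∀ n x, |(F n x 0 : ℝ) - F 0 x 0| ≤ (1 - F 0 x 0) / 4) ∧
      (∀ n, ∀ x ∈ A n, F (n + 1) x = F n x) ∧
      (∀ n, Boxy (F (n + 1) '' ((c n).C \ A n))) := by
  obtain ⟨F0, hF0⟩ := exists_good M
  have hcont : Continuous fun x => (F0 x 0 : ℝ) :=
    continuous_subtype_val.comp ((continuous_apply (0 : ℕ)).comp hF0.1)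
  obtain ⟨F, hFz, hFP, hFR⟩ := Final_seq (α := M → Q)
    (fun n F => Good F ∧ ∀ x, |(F x 0 : ℝ) - F0 x 0| ≤ (1 - (1 / 2) ^ n) * ((1 - F0 x 0) / 4))
    (fun n F F' => (∀ x ∈ A n, F' x = F x) ∧ Boxy (F' '' ((c n).C \ A n))) F0
    ⟨hF0, fun x => by simp⟩ (by
      rintro n F ⟨hG, hFc⟩
      have hp : ∀ x, 0 < 1 - (F0 x 0 : ℝ) := fun x => sub_pos.2 (hF0.2.2.1 x)
      have h2 : (0 : ℝ) < (1 / 2) ^ n := by positivity
      have h3 : ((1 : ℝ) / 2) ^ n ≤ 1 := pow_le_one₀ (by norm_num) (by norm_num)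
      obtain ⟨F', h1, hinj, hA', hd, hB⟩ := step T (c n) (A n) (hA n) F hG
        (fun x => (1 / 2) ^ (n + 3) * (1 - F0 x 0))
        (continuous_const.mul (continuous_const.sub hcont))
        (fun x => mul_pos (by positivity) (hp x)) (by
          intro x
          have h4 := abs_le.1 (hFc x)
          have h5 := hp x
          rw [pow_add]
          nlinarith [h4.2, mul_le_mul_of_nonneg_right h3 h5.le, mul_pos h2 h5])
      have hcl : ∀ x, |(F' x 0 : ℝ) - F0 x 0| ≤ (1 - (1 / 2) ^ (n + 1)) * ((1 - F0 x 0) / 4) := by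
        intro x
        have h4 := hFc x
        have h5 := (abs_zero_le (F' x) (F x)).trans (hd x).le
        have h6 : (F' x 0 : ℝ) - F0 x 0 = (F' x 0 - F x 0) + (F x 0 - F0 x 0) := by ring
        rw [h6]
        refine (abs_add_le _ _).trans ?_
        rw [pow_add] at h5 ⊢
        rw [pow_one]
        norm_num at h5 h4 ⊢
        nlinarith [hp x]
      refine ⟨F', ⟨Good.of_close hF0 h1 hinj fun x => ?_, hcl⟩, hA', hB⟩
      refine (hcl x).trans ?_
      have h5 := hp x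
      have h6 : (0 : ℝ) < (1 / 2) ^ (n + 1) := by positivity
      nlinarith [mul_pos h6 h5])
  refine ⟨F, fun n => (hFP n).1, fun n x => ?_, fun n => (hFR n).1, fun n => (hFR n).2⟩
  rw [hFz]
  refine ((hFP n).2 x).trans ?_
  have h5 : 0 < 1 - (F0 x 0 : ℝ) := sub_pos.2 (hF0.2.2.1 x)
  have h6 : (0 : ℝ) < (1 / 2) ^ n := by positivity
  nlinarith [mul_pos h6 h5]

theorem limit {M : Type} [TopologicalSpace M] [TopologicalSpace.SeparableSpace M]
    [TopologicalSpace.MetrizableSpace M] [LocallyCompactSpace M] (T : Tree) (c : ℕ → Cell T M)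
    (hc : ∀ x, ∃ n, (⋃ i ∈ Finset.range n, (c i).C) ∈ 𝓝 x) :
    ∃ G : M → Q, Topology.IsEmbedding G ∧ Boxy (range G) := by
  set A : ℕ → Set M := fun n => ⋃ i ∈ Finset.range n, (c i).C with hAdef
  have hA : ∀ n, IsClosed (A n) := fun n =>
    isClosed_biUnion_finset fun i _ => (c i).C_compact.isClosed
  have hAmono : Monotone A := by
    intro m n hmn
    exact biUnion_subset_biUnion_left fun i hi =>
      Finset.mem_coe.2 (Finset.mem_range.2 ((Finset.mem_range.1 (Finset.mem_coe.1 hi)).trans_le hmn))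
  have hCA : ∀ n, (c n).C ⊆ A (n + 1) := fun n =>
    subset_biUnion_of_mem (u := fun i => (c i).C) (Finset.mem_coe.2 (Finset.self_mem_range_succ n))
  obtain ⟨F, hgood, hclose, hstab, hbox⟩ := Final_exists_seq T c A hA
  have hst : ∀ n m, n ≤ m → ∀ x ∈ A n, F m x = F n x := by
    intro n m hnm x hx
    induction m, hnm using Nat.le_induction with
    | base => rfl
    | succ m hm ih => rw [hstab m x (hAmono hm hx), ih]
  choose N hN using hc
  have hxN : ∀ x, x ∈ A (N x) := fun x => mem_of_mem_nhds (hN x)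
  obtain ⟨G, hGdef⟩ : ∃ G : M → Q, ∀ x, G x = F (N x) x := ⟨fun x => F (N x) x, fun x => rfl⟩
  have hG : ∀ n, ∀ x ∈ A n, G x = F n x := by
    intro n x hx
    rw [hGdef]
    rcases le_total n (N x) with h | h
    · exact hst n (N x) h x hx
    · exact (hst (N x) n h x (hxN x)).symm
  have hGc : Continuous G := by
    rw [continuous_iff_continuousAt]
    intro x
    exact (hgood (N x)).1.continuousAt.congr (Filter.mem_of_superset (hN x) fun y hy =>
      (hG (N x) y hy).symm)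
  have hGi : Function.Injective G := by
    intro x y hxy
    rw [hG (max (N x) (N y)) x (hAmono (le_max_left _ _) (hxN x)),
      hG (max (N x) (N y)) y (hAmono (le_max_right _ _) (hxN y))] at hxy
    exact (hgood _).2.1 hxy
  have hGgood : Good G := by
    refine Good.of_close (hgood 0) hGc hGi fun x => ?_
    rw [hGdef]
    refine (hclose (N x) x).trans ?_
    have := (hgood 0).2.2.1 x
    linarith
  refine ⟨G, hGgood.isEmbedding, ?_⟩
  have himg : ∀ n, G '' ((c n).C \ A n) = F (n + 1) '' ((c n).C \ A n) := fun n =>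
    image_congr fun x hx => hG (n + 1) x (hCA n hx.1)
  choose D hD1 hD2 hD3 using hbox
  have hdisj : ∀ m n, m < n → Disjoint (G '' ((c m).C \ A m)) (G '' ((c n).C \ A n)) := by
    intro m n hmn
    rw [disjoint_image_iff hGi]
    refine disjoint_left.2 fun x hx hx' => hx'.2 (hAmono (Nat.succ_le_of_lt hmn) (hCA m hx.1))
  have hdisj' : ∀ m n, m ≠ n → Disjoint (G '' ((c m).C \ A m)) (G '' ((c n).C \ A n)) := by
    intro m n hmn
    rcases lt_or_gt_of_ne hmn with h | h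
    · exact hdisj m n h
    · exact (hdisj n m h).symm
  have hsub : ∀ n, ∀ B ∈ D n, B ⊆ G '' ((c n).C \ A n) := by
    intro n B hB
    rw [himg, hD3]
    exact subset_sUnion_of_mem hB
  refine ⟨⋃ n, D n, ?_, ?_, ?_⟩
  · intro B hB
    obtain ⟨n, hn⟩ := mem_iUnion.1 hB
    exact hD1 n B hn
  · intro B hB
    obtain ⟨n, hn⟩ := mem_iUnion.1 hB
    refine (hD2 n B hn).subset ?_
    rintro E ⟨hE, y, hyB, hyE⟩
    obtain ⟨m, hm⟩ := mem_iUnion.1 hE
    by_cases hmn : m = n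
    · subst hmn
      exact ⟨hm, y, hyB, hyE⟩
    · exact absurd (hsub n B hn hyB) (disjoint_left.1 (hdisj' m n hmn) (hsub m E hm hyE))
  · rw [sUnion_iUnion]
    have : ∀ n, ⋃₀ D n = G '' ((c n).C \ A n) := fun n => by rw [himg, hD3]
    simp_rw [this]
    rw [← image_iUnion, ← image_univ]
    congr 1
    symm
    rw [eq_univ_iff_forall]
    intro x
    have hex : ∃ n, x ∈ (c n).C := by
      have := hxN x
      simp only [hAdef, mem_iUnion] at this
      obtain ⟨i, -, hi⟩ := this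
      exact ⟨i, hi⟩
    classical
    refine mem_iUnion.2 ⟨Nat.find hex, Nat.find_spec hex, fun h => ?_⟩
    simp only [hAdef, mem_iUnion] at h
    obtain ⟨i, hi, hxi⟩ := h
    exact Nat.find_min hex (Finset.mem_range.1 hi) hxi

theorem main : ∀ (M : Type) [TopologicalSpace M] [TopologicalSpace.SeparableSpace M]
    [TopologicalSpace.MetrizableSpace M],
    (∀ x : M, ∃ U : Set M, IsOpen U ∧ x ∈ U ∧
      ∃ V : Set (ℕ → Set.Icc (0:ℝ) 1), IsOpen V ∧ Nonempty (U ≃ₜ V)) →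
    ∃ f : M → (ℕ → Set.Icc (0:ℝ) 1), Topology.IsEmbedding f ∧
      ∃ 𝒞 : Set (Set (ℕ → Set.Icc (0:ℝ) 1)),
        (∀ B ∈ 𝒞, ∃ a b : ℕ → ℝ, (∀ i, 0 ≤ a i ∧ a i < b i ∧ b i ≤ 1) ∧
          {i : ℕ | a i ≠ 0 ∨ b i ≠ 1}.Finite ∧
          B = {x | ∀ i, a i ≤ (x i : ℝ) ∧ (x i : ℝ) ≤ b i}) ∧
        (∀ B ∈ 𝒞, {D ∈ 𝒞 | (B ∩ D).Nonempty}.Finite) ∧
        Set.range f = ⋃₀ 𝒞 := by
  intro M _ _ _ hM
  rcases isEmpty_or_nonempty M with hE | hE
  · refine ⟨fun x => (hE.false x).elim, Topology.IsEmbedding.of_subsingleton _, ∅, ?_, ?_, ?_⟩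
    · intro B hB
      exact absurd hB (notMem_empty B)
    · intro B hB
      exact absurd hB (notMem_empty B)
    · rw [range_eq_empty, sUnion_empty]
  · obtain ⟨T⟩ := exists_tree
    have := locallyCompact_of_charts M hM
    obtain ⟨c, hc⟩ := exists_cells T M hM
    obtain ⟨G, hG, 𝒟, h1, h2, h3⟩ := limit T c hc
    refine ⟨G, hG, 𝒟, ?_, h2, h3⟩
    intro B hB
    obtain ⟨a, b, hab, hfin, rfl⟩ := h1 B hB
    refine ⟨fun n => (a n : ℝ), fun n => (b n : ℝ), fun i => ⟨(a i).2.1, hab i, (b i).2.2⟩, ?_, rfl⟩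
    refine hfin.subset ?_
    intro i hi
    rcases hi with hi | hi
    · exact Or.inl fun h => hi (show (a i : ℝ) = 0 by rw [h]; rfl)
    · exact Or.inr fun h => hi (show (b i : ℝ) = 1 by rw [h]; rfl)

end Pool.Agent.H56.SR
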